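import Pool.Agent.H36.CY.Df
import Pool.Agent.H10.StarGal
import Mathlib.NumberTheory.RamificationInertia.Galois

/-!
The data `LayT` of a Galois extension `N₀ / K` gives the same data for a larger Galois extension `N / K` with
cyclic decomposition groups (project MP_78d38b_CY, no row, proved).
-/

set_option autoImplicit false
set_option linter.unusedSectionVars false
open scoped Classical

open WithZero NumberField IsDedekindDomain H38RT
open H76PP H36CY

namespace H30CY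

section Trans

variable {K N : Type} [Field K] [NumberField K] [Field N] [NumberField N] [Algebra K N]

/-- The Galois group permutes transitively the primes above a prime of `K`. -/
theorem exists_gal [IsGalois K N] {W W' : HeightOneSpectrum (𝓞 N)} (h : dn K W = dn K W') :
    ∃ σ : N ≃ₐ[K] N, ∀ x : N, W.valuation N (σ x) = W'.valuation N x := by
  have _ : FiniteDimensional K N := Module.Finite.of_restrictScalars_finite ℚ K N
  have h1 : W.asIdeal ∈ (dn K W).asIdeal.primesOver (𝓞 N) := ⟨W.isPrime, ⟨rfl⟩⟩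
  have h2 : W'.asIdeal ∈ (dn K W).asIdeal.primesOver (𝓞 N) := ⟨W'.isPrime, ⟨by rw [h]; rfl⟩⟩
  obtain ⟨σ, hσ⟩ := Ideal.exists_comap_galRestrict_eq (R := 𝓞 K) (K := K) (L := N) (S := 𝓞 N) h1 h2
  refine ⟨σ, ?_⟩
  obtain ⟨w', hw', -⟩ := Pool.Agent.H10.exists_conj σ W
  have hs : ∀ x : 𝓞 N, algebraMap (𝓞 N) N (galRestrict (𝓞 K) K N (𝓞 N) σ x) =
      σ (algebraMap (𝓞 N) N x) := fun x => algebraMap_galRestrict_apply (𝓞 K) σ x
  have h3 : w' = W' := by
    apply HeightOneSpectrum.ext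
    rw [← hσ]
    ext x
    rw [Ideal.mem_comap, ← w'.valuation_lt_one_iff_mem (K := N), ← hw', ← hs,
      W.valuation_lt_one_iff_mem]
  rw [h3] at hw'
  exact hw'

end Trans

section Up

variable {K N₀ N : Type} [Field K] [NumberField K] [Field N₀] [NumberField N₀] [Field N]
  [NumberField N] [Algebra K N₀] [Algebra K N] [Algebra N₀ N] [IsScalarTower K N₀ N]

theorem dn_tower (W : HeightOneSpectrum (𝓞 N)) : dn K (dn N₀ W) = dn K W := by
  apply HeightOneSpectrum.ext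
  change (W.asIdeal.comap (algebraMap (𝓞 N₀) (𝓞 N))).comap (algebraMap (𝓞 K) (𝓞 N₀)) =
    W.asIdeal.comap (algebraMap (𝓞 K) (𝓞 N))
  rw [Ideal.comap_comap]
  congr 1
  ext x
  change algebraMap N₀ N (algebraMap K N₀ (x : K)) = algebraMap K N (x : K)
  exact (IsScalarTower.algebraMap_apply K N₀ N (x : K)).symm

/-- The valuation at `W` is a power of the valuation below. -/
theorem val_dn_pow (W : HeightOneSpectrum (𝓞 N)) : ∃ e : ℕ, 0 < e ∧ ∀ x : N₀,
    W.valuation N (algebraMap N₀ N x) = (dn N₀ W).valuation N₀ x ^ e := by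
  obtain ⟨e, he, h⟩ := ord_dn (K := N₀) W
  refine ⟨e, he, fun x => ?_⟩
  by_cases hx : x = 0
  · rw [hx, map_zero, map_zero, map_zero, zero_pow he.ne']
  · have h1 := h x hx
    have h2 : W.valuation N (algebraMap N₀ N x) ≠ 0 :=
      (Valuation.ne_zero_iff _).2 ((map_ne_zero _).2 hx)
    have h3 : (dn N₀ W).valuation N₀ x ≠ 0 := (Valuation.ne_zero_iff _).2 hx
    unfold ord at h1
    rw [← exp_log h2, ← exp_log h3, ← exp_nsmul]
    congr 1
    rw [nsmul_eq_mul]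
    linarith

theorem stb_down [Normal K N₀] {W : HeightOneSpectrum (𝓞 N)} {g : N ≃ₐ[K] N} (h : Stb K W g) :
    Stb K (dn N₀ W) (AlgEquiv.restrictNormalHom N₀ g) := by
  obtain ⟨e, he, hv⟩ := val_dn_pow (N₀ := N₀) W
  intro y
  have h1 : algebraMap N₀ N (AlgEquiv.restrictNormalHom N₀ g y) = g (algebraMap N₀ N y) :=
    AlgEquiv.restrictNormal_commutes g N₀ y
  have h2 := hv (AlgEquiv.restrictNormalHom N₀ g y)
  rw [h1, h, hv] at h2
  exact (pow_left_injective he.ne' h2).symm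

/-- The decomposition group maps onto the decomposition group. -/
theorem stb_lift [IsGalois K N₀] [IsGalois K N] {W : HeightOneSpectrum (𝓞 N)} {g₀ : N₀ ≃ₐ[K] N₀}
    (h : Stb K (dn N₀ W) g₀) : ∃ g : N ≃ₐ[K] N, Stb K W g ∧ AlgEquiv.restrictNormalHom N₀ g = g₀ := by
  have _ : IsGalois N₀ N := IsGalois.tower_top_of_isGalois K N₀ N
  obtain ⟨g₁, hg₁⟩ := AlgEquiv.restrictNormalHom_surjective (F := K) (K₁ := N₀) N g₀
  have hr : ∀ y : N₀, g₁ (algebraMap N₀ N y) = algebraMap N₀ N (g₀ y) := by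
    intro y
    rw [← hg₁]
    exact (AlgEquiv.restrictNormal_commutes g₁ N₀ y).symm
  obtain ⟨W', hW', -⟩ := Pool.Agent.H10.exists_conj g₁ W
  have h3 : dn N₀ W' = dn N₀ W := by
    apply HeightOneSpectrum.ext
    ext x
    obtain ⟨e, he, hv⟩ := val_dn_pow (N₀ := N₀) W
    obtain ⟨e', he', hv'⟩ := val_dn_pow (N₀ := N₀) W'
    rw [← (dn N₀ W').valuation_lt_one_iff_mem (K := N₀), ← (dn N₀ W).valuation_lt_one_iff_mem (K := N₀),
      ← pow_lt_one_iff he'.ne', ← hv', ← hW', hr, hv, h, pow_lt_one_iff he.ne']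
  obtain ⟨s, hs⟩ := exists_gal (K := N₀) (W := W') (W' := W) h3
  have hgx : ∀ x : N, ((s.restrictScalars K).trans g₁) x = g₁ (s x) := fun _ => rfl
  refine ⟨(s.restrictScalars K).trans g₁, ?_, ?_⟩
  · intro y
    rw [hgx, hW', hs]
  · apply AlgEquiv.ext
    intro y
    apply (algebraMap N₀ N).injective
    have h4 : algebraMap N₀ N (AlgEquiv.restrictNormalHom N₀ ((s.restrictScalars K).trans g₁) y) =
        ((s.restrictScalars K).trans g₁) (algebraMap N₀ N y) :=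
      AlgEquiv.restrictNormal_commutes _ N₀ y
    rw [h4, hgx, s.commutes, hr]

/-- The data go up. -/
theorem layT_up [IsGalois K N₀] [IsGalois K N] {W : HeightOneSpectrum (𝓞 N)} {τ₀ : N₀ ≃ₐ[K] N₀}
    {ρ₀ : N₀} {D : K} (h : LayT K (dn N₀ W) τ₀ ρ₀ D) {τ : N ≃ₐ[K] N}
    (hτ : ∀ g : N ≃ₐ[K] N, Stb K W g ↔ g ∈ Subgroup.zpowers τ) :
    LayT K W τ (algebraMap N₀ N ρ₀) D := by
  have hSτ : Stb K W τ := (hτ τ).2 (Subgroup.mem_zpowers τ)
  obtain ⟨j, hj⟩ := Subgroup.mem_zpowers_iff.1 ((h.gen _).1 (stb_down (N₀ := N₀) hSτ))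
  obtain ⟨g, hg, hgr⟩ := stb_lift (K := K) (N₀ := N₀) (W := W)
    ((h.gen τ₀).2 (Subgroup.mem_zpowers τ₀))
  obtain ⟨i, hi⟩ := Subgroup.mem_zpowers_iff.1 ((hτ g).1 hg)
  have hpow : ∀ n : ℤ, (τ₀ ^ n) ρ₀ = (-1) ^ n * ρ₀ := by
    have h1 : ∀ n : ℕ, (τ₀ ^ n) ρ₀ = (-1) ^ n * ρ₀ := by
      intro n
      induction n with
      | zero => simp
      | succ n ih =>
        rw [pow_succ, AlgEquiv.mul_apply, h.neg, map_neg, ih, pow_succ]
        ring
    intro n
    obtain ⟨m, rfl | rfl⟩ := n.eq_nat_or_neg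
    · rw [zpow_natCast, zpow_natCast]
      exact h1 m
    · have h2 := h1 m
      have h3 : (τ₀ ^ (-(m : ℤ))) ((τ₀ ^ m) ρ₀) = ρ₀ := by
        rw [zpow_neg, zpow_natCast, ← AlgEquiv.mul_apply, inv_mul_cancel, AlgEquiv.one_apply]
      rw [h2, map_mul, map_pow, map_neg, map_one] at h3
      have h4 : ((-1 : N₀) ^ m) * ((-1 : N₀) ^ m) = 1 := by
        rw [← mul_pow]
        simp
      have h5 : ((-1 : N₀) ^ m)⁻¹ = (-1) ^ m := inv_eq_of_mul_eq_one_left h4
      have h6 : (-1 : N₀) ^ (-(m : ℤ)) = (-1) ^ m := by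
        rw [zpow_neg, zpow_natCast, h5]
      rw [h6]
      calc (τ₀ ^ (-(m : ℤ))) ρ₀ = (((-1 : N₀) ^ m) * ((-1 : N₀) ^ m)) * (τ₀ ^ (-(m : ℤ))) ρ₀ := by
            rw [h4, one_mul]
        _ = (-1) ^ m * ((-1) ^ m * (τ₀ ^ (-(m : ℤ))) ρ₀) := by ring
        _ = (-1) ^ m * ρ₀ := by rw [h3]
  have h2 : τ₀ ^ (j * i) = τ₀ := by
    rw [zpow_mul, hj, ← map_zpow, hi, hgr]
  have h3 : (-1 : N₀) ^ (j * i) * ρ₀ = -1 * ρ₀ := by
    rw [← hpow, h2, h.neg]
    ring
  have h4 : (-1 : N₀) ^ (j * i) = -1 := mul_right_cancel₀ h.ne h3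
  have hne : (-1 : N₀) ≠ 1 := by
    intro h5
    have h6 : (2 : N₀) = 0 := by linear_combination -h5
    exact two_ne_zero h6
  have hodd : Odd j := by
    rcases Int.even_or_odd j with hj' | hj'
    · exfalso
      apply hne
      rw [← h4, (hj'.mul_right i).neg_one_zpow]
    · exact hj'
  refine ⟨hτ, (map_ne_zero _).2 h.ne, ?_, ?_⟩
  · have h5 : algebraMap N₀ N (AlgEquiv.restrictNormalHom N₀ τ ρ₀) = τ (algebraMap N₀ N ρ₀) :=
      AlgEquiv.restrictNormal_commutes τ N₀ ρ₀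
    rw [← h5, ← hj, hpow, hodd.neg_one_zpow, neg_one_mul, map_neg]
  · obtain ⟨e, he, hv⟩ := val_dn_pow (N₀ := N₀) W
    have h6 := h.near
    have e1 : (algebraMap N₀ N ρ₀) ^ 2 - algebraMap K N D =
        algebraMap N₀ N (ρ₀ ^ 2 - algebraMap K N₀ D) := by
      rw [map_sub, map_pow, IsScalarTower.algebraMap_apply K N₀ N]
    have e2 : 4 * algebraMap K N D = algebraMap N₀ N (4 * algebraMap K N₀ D) := by
      rw [map_mul, map_ofNat, IsScalarTower.algebraMap_apply K N₀ N]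
    rw [e1, e2, hv, hv]
    exact pow_lt_pow_left₀ h6 zero_le he.ne'

end Up

end H30CY
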