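import Pool.Agent.H30.CY.Inf
import Pool.Agent.H30.CY.Up
import Pool.Agent.H36.CY.If

/-!
Final assembly for the project MP_78d38b_CY (no row, proved).
-/

set_option autoImplicit false
set_option linter.unusedSectionVars false
open scoped Classical

open WithZero NumberField IsDedekindDomain H38RT H76PP H36MT H36CY

namespace H30CY

/-- The local data at a prime above two. -/
theorem loc_data {K F : Type} [Field K] [NumberField K] [Field F] [Algebra K F] [IsGalois K F]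
    (hdeg : ∀ (N : IntermediateField K F) [NumberField N], IsGalois K N →
      ∃ r : ℕ, Module.finrank K N = 2 ^ r) {v : HeightOneSpectrum (𝓞 K)}
    (hv : (2 : 𝓞 K) ∈ v.asIdeal)
    (hdec : ∀ (N : IntermediateField K F) [NumberField N], IsGalois K N →
      ∀ W : HeightOneSpectrum (𝓞 N), dn K W = v → ∃ τ : N ≃ₐ[K] N, ∀ g : N ≃ₐ[K] N,
        Stb K W g ↔ g ∈ Subgroup.zpowers τ) :
    ∃ (e : ℕ) (A₀ B₀ : 𝓞 K)
      (N₀ : IntermediateField K F), FiniteDimensional K N₀ ∧ dsc A₀ B₀ ∉ v.asIdeal ^ e ∧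
      ∀ A B : 𝓞 K, A - A₀ ∈ v.asIdeal ^ e → B - B₀ ∈ v.asIdeal ^ e →
        ∀ (N : IntermediateField K F) [NumberField N], IsGalois K N → N₀ ≤ N →
          DescAt K N v (A : K) (B : K) := by
  have hv2 := two_mem_iff.2 hv
  have h0 : ∀ (n : ℕ), (-27 : 𝓞 K) + 27 ∈ v.asIdeal ^ n := by
    intro n
    rw [neg_add_cancel]
    exact Ideal.zero_mem _
  have h1 : ∀ (n : ℕ) (x : 𝓞 K), x - x ∈ v.asIdeal ^ n := by
    intro n x
    rw [sub_self]
    exact Ideal.zero_mem _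
  have h27 : ∀ (n : ℕ) (x : 𝓞 K), x - (-27) ∈ v.asIdeal ^ n → x + 27 ∈ v.asIdeal ^ n := by
    intro n x h
    rwa [sub_neg_eq_add] at h
  by_cases hc : ∀ (N : IntermediateField K F) [NumberField N], IsGalois K N →
      ∀ W : HeightOneSpectrum (𝓞 N), dn K W = v → ∀ g : N ≃ₐ[K] N, Stb K W g → g = 1
  · obtain ⟨n, b₀, h⟩ := class_triv hv2
    refine ⟨n, -27, b₀, ⊥, inferInstance, (h _ _ (h0 n) (h1 n b₀)).2, ?_⟩
    intro A B hA hB N _ hN _
    obtain ⟨r, hr⟩ := hdeg N hN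
    exact descAt hr ⟨(h A B (h27 n A hA) hB).1, Or.inl (hc N hN)⟩
  · push Not at hc
    obtain ⟨N₀, hnf, hN₀, W₀, hW₀, g₀, hg₀, hne⟩ := hc
    obtain ⟨r₀, hr₀⟩ := hdeg N₀ hN₀
    rcases lay_all hr₀ (hdec N₀ hN₀) with h | ⟨D, hD⟩
    · exact absurd (h W₀ hW₀ g₀ hg₀) hne
    · have hns : ¬ IsSquare (algebraMap K (v.adicCompletion K) D) := by
        have h2 := lay_nonsq (hD W₀ hW₀)
        rw [hW₀] at h2
        exact h2
      obtain ⟨n, b₀, h⟩ := class_lay hv2 hns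
      refine ⟨n, -27, b₀, N₀, Module.Finite.of_restrictScalars_finite ℚ K N₀,
        (h _ _ (h0 n) (h1 n b₀)).2.1, ?_⟩
      intro A B hA hB N _ hN hle
      obtain ⟨r, hr⟩ := hdeg N hN
      let _ : Algebra N₀ N := (IntermediateField.inclusion hle).toRingHom.toAlgebra
      have _ : IsScalarTower K N₀ N := IsScalarTower.of_algebraMap_eq fun _ => rfl
      obtain ⟨g1, -, g2⟩ := h A B (h27 n A hA) hB
      refine descAt hr ⟨g1, Or.inr ⟨D, fun W hW => ?_, g2⟩⟩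
      obtain ⟨τ₀, ρ₀, h3⟩ := hD (dn N₀ W) (by rw [dn_tower, hW])
      obtain ⟨τ, hτ⟩ := hdec N hN W hW
      exact ⟨τ, _, layT_up h3 hτ⟩

/-- The final theorem: `F / K` finite or infinite. -/
theorem main_two (K F : Type) [Field K] [NumberField K] [Field F] [Algebra K F]
    (hgal : IsGalois K F)
    (hdeg : ∀ (N : IntermediateField K F) [NumberField N], IsGalois K N →
      ∃ r : ℕ, Module.finrank K N = 2 ^ r)
    (hram : {v : HeightOneSpectrum (𝓞 K) | ∃ (N : IntermediateField K F) (_ : NumberField N)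
      (V : HeightOneSpectrum (𝓞 N)), dn K V = v ∧ H73P2.Ram K V}.Finite)
    (hspl : FiniteDimensional K F ∨
      {v : HeightOneSpectrum (𝓞 K) | ∃ ι : F →+* v.adicCompletion K, ∀ x : K,
      ι (algebraMap K F x) = algebraMap K (v.adicCompletion K) x}.Infinite)
    (hdec : ∀ (N : IntermediateField K F) [NumberField N], IsGalois K N →
      ∀ W : HeightOneSpectrum (𝓞 N), (2 : 𝓞 N) ∈ W.asIdeal → ∃ τ : N ≃ₐ[K] N,
        ∀ g : N ≃ₐ[K] N, Stb K W g ↔ g ∈ Subgroup.zpowers τ) :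
    ∃ (c X₀ : ℝ), 0 < c ∧ ∀ X : ℝ, X₀ ≤ X → ∃ G : Finset (𝓞 K × 𝓞 K),
      (∀ p ∈ G, p ∈ Bx K X ∧ 4 * p.1 ^ 3 + 27 * p.2 ^ 2 ≠ 0 ∧
        Finite (⟨0, 0, 0, algebraMap K F p.1, algebraMap K F p.2⟩ :
          WeierstrassCurve F).toAffine.Point ∧
        ∀ (M : IntermediateField K F) [NumberField M],
          Finite (⟨0, 0, 0, algebraMap K M p.1, algebraMap K M p.2⟩ :
            WeierstrassCurve M).toAffine.Point ∧
          Pool.Agent.H10.Sha2Trivial M
            (⟨0, 0, 0, algebraMap K M p.1, algebraMap K M p.2⟩ : WeierstrassCurve M)) ∧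
      (∀ p ∈ G, ∀ q ∈ G, p.1 ^ 3 * q.2 ^ 2 = q.1 ^ 3 * p.2 ^ 2 → p = q) ∧
      c * ((Bx K X).ncard : ℝ) ≤ (G.card : ℝ) := by
  refine main_inf_of K F hdeg hram ?_ fun v hv => loc_data hdeg hv fun N _ hN W hW =>
    hdec N hN W ?_
  · rcases hspl with h | h
    · have _ : NumberField F := NumberField.of_module_finite K F
      exact H30PN.split_inf K F
    · exact h
  · have h1 : (2 : 𝓞 K) ∈ (dn K W).asIdeal := by
      rw [hW]
      exact hv
    have h2 : algebraMap (𝓞 K) (𝓞 N) 2 ∈ W.asIdeal := h1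
    rwa [map_ofNat] at h2

end H30CY
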