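import Pool.Agent.H30.CY.Gen
import Pool.Agent.H30.PN.Sp
import Pool.Agent.H73.P2.Wh
import Mathlib.FieldTheory.Normal.Closure

/-!
Assembly for the project MP_78d38b_CY: a finite or infinite Galois extension `F / K` given in advance (no row,
proved).
-/

set_option autoImplicit false
set_option linter.unusedSectionVars false
open scoped Classical

open WithZero NumberField IsDedekindDomain H38RT H76PP H36MT
open H38T1 (SC sc scu rep eo la si Pri OddP tp unif)

namespace H30CY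

/-- Every prime contains a prime number. -/
theorem exists_char {K : Type} [Field K] [NumberField K] (v : HeightOneSpectrum (𝓞 K)) :
    ∃ l : ℕ, l.Prime ∧ (l : 𝓞 K) ∈ v.asIdeal := by
  have h : ∀ n : ℕ, n ≠ 0 → (n : 𝓞 K) ∈ v.asIdeal → ∃ l : ℕ, l.Prime ∧ (l : 𝓞 K) ∈ v.asIdeal := by
    intro n
    induction n using Nat.strong_induction_on with
    | _ n ih =>
      intro hn0 hn
      by_cases h1 : n = 1
      · exfalso
        apply v.isPrime.ne_top
        rw [Ideal.eq_top_iff_one]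
        rw [h1, Nat.cast_one] at hn
        exact hn
      · obtain ⟨l, hl, k, rfl⟩ := Nat.exists_prime_and_dvd h1
        rw [Nat.cast_mul] at hn
        rcases v.isPrime.mem_or_mem hn with h2 | h2
        · exact ⟨l, hl, h2⟩
        · have hk0 : k ≠ 0 := by
            rintro rfl
            exact hn0 (mul_zero l)
          refine ih k ?_ hk0 h2
          calc k = 1 * k := (one_mul k).symm
            _ < l * k := Nat.mul_lt_mul_of_pos_right hl.one_lt (Nat.pos_of_ne_zero hk0)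
  refine h (Ideal.absNorm v.asIdeal) ?_ (Ideal.absNorm_mem _)
  rw [Ne, Ideal.absNorm_eq_zero_iff]
  exact v.ne_bot

/-- Two good primes of different residue characteristics in an infinite set. -/
theorem exists_two_in {K : Type} [Field K] [NumberField K] {A B : 𝓞 K}
    {Z : Set (HeightOneSpectrum (𝓞 K))} (hZ : Z.Infinite)
    (hd : 4 * A ^ 3 + 27 * B ^ 2 ≠ 0) :
    ∃ (l l' : ℕ) (v v' : HeightOneSpectrum (𝓞 K)), v ∈ Z ∧ v' ∈ Z ∧ l.Prime ∧ l'.Prime ∧ l ≠ l' ∧
      (l : 𝓞 K) ∈ v.asIdeal ∧ (l' : 𝓞 K) ∈ v'.asIdeal ∧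
      2 * (4 * A ^ 3 + 27 * B ^ 2) ∉ v.asIdeal ∧ 2 * (4 * A ^ 3 + 27 * B ^ 2) ∉ v'.asIdeal := by
  have hfin : ∀ x : 𝓞 K, x ≠ 0 → {v : HeightOneSpectrum (𝓞 K) | x ∈ v.asIdeal}.Finite := by
    intro x hx
    refine (Ideal.finite_factors (I := Ideal.span {x}) ?_).subset fun v hv => ?_
    · rw [Ne, Ideal.zero_eq_bot, Ideal.span_singleton_eq_bot]
      exact hx
    · exact Ideal.dvd_span_singleton.2 hv
  have hz : 2 * (4 * A ^ 3 + 27 * B ^ 2) ≠ 0 := mul_ne_zero two_ne_zero hd
  have h1 := hZ.sdiff (hfin _ hz)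
  obtain ⟨v, hv, hv2⟩ := h1.nonempty
  obtain ⟨l, hl, hlv⟩ := exists_char v
  have hl0 : (l : 𝓞 K) ≠ 0 := by
    exact_mod_cast hl.ne_zero
  obtain ⟨v', ⟨hv', hv2'⟩, hlv'⟩ := (h1.sdiff (hfin _ hl0)).nonempty
  obtain ⟨l', hl', hlv2⟩ := exists_char v'
  refine ⟨l, l', v, v', hv, hv', hl, hl', ?_, hlv, hlv2, hv2, hv2'⟩
  rintro rfl
  exact hlv' hlv2

/-- Finitely many points over an algebraic extension (modification of `H73P2.fin_mq`). -/
theorem fin_any {K F : Type} [Field K] [NumberField K] [Field F] [Algebra K F]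
    [Algebra.IsAlgebraic K F] {A B : 𝓞 K}
    (hM : ∀ (M : IntermediateField K F) [NumberField M],
      Finite (⟨0, 0, 0, algebraMap K M A, algebraMap K M B⟩ : WeierstrassCurve M).toAffine.Point)
    [DecidableEq F]
    (ht : {P : (⟨0, 0, 0, algebraMap K F A, algebraMap K F B⟩ :
      WeierstrassCurve F).toAffine.Point | ∃ n : ℕ, n ≠ 0 ∧ n • P = 0}.Finite) :
    Finite (⟨0, 0, 0, algebraMap K F A, algebraMap K F B⟩ :
      WeierstrassCurve F).toAffine.Point := by
  have hall : ∀ P : (⟨0, 0, 0, algebraMap K F A, algebraMap K F B⟩ :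
      WeierstrassCurve F).toAffine.Point, ∃ n : ℕ, n ≠ 0 ∧ n • P = 0 := by
    rintro (_ | ⟨x, y, hxy⟩)
    · exact ⟨1, one_ne_zero, one_nsmul 0⟩
    · let M : IntermediateField K F := IntermediateField.adjoin K {x, y}
      have hxM : x ∈ M := IntermediateField.subset_adjoin K _ (Set.mem_insert _ _)
      have hyM : y ∈ M :=
        IntermediateField.subset_adjoin K _ (Set.mem_insert_of_mem _ (Set.mem_singleton _))
      have hfd : FiniteDimensional K M :=
        IntermediateField.finiteDimensional_adjoin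
          (fun z _ => (Algebra.IsAlgebraic.isAlgebraic (R := K) z).isIntegral)
      have hnf : NumberField M := NumberField.of_module_finite K M
      have hfin := hM M
      let ι : M →+* F := M.val.toRingHom
      have hι : ∀ a : K, ι (algebraMap K M a) = algebraMap K F a := fun a => rfl
      have hV : (⟨0, 0, 0, algebraMap K M A, algebraMap K M B⟩ : WeierstrassCurve M).map ι =
          ⟨0, 0, 0, algebraMap K F A, algebraMap K F B⟩ := by
        simp only [WeierstrassCurve.map, hι, map_zero]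
      have hns : (⟨0, 0, 0, algebraMap K M A, algebraMap K M B⟩ :
          WeierstrassCurve M).toAffine.Nonsingular ⟨x, hxM⟩ ⟨y, hyM⟩ := by
        rw [← WeierstrassCurve.Affine.map_nonsingular _ ι.injective]
        exact (congrArg (fun W => WeierstrassCurve.Affine.Nonsingular W x y) hV).mpr hxy
      have hP : Pool.Agent.H10.pm ι hV (.some _ _ hns) = .some x y hxy := rfl
      obtain ⟨m, hm0, hm⟩ := isOfFinAddOrder_iff_nsmul_eq_zero.1
        (isOfFinAddOrder_of_finite (WeierstrassCurve.Affine.Point.some _ _ hns))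
      refine ⟨m, hm0.ne', ?_⟩
      rw [← hP, ← map_nsmul, hm, map_zero]
  rw [← Set.finite_univ_iff]
  exact ht.subset fun P _ => hall P

/-- `M` is a number field contained in a finite Galois extension inside `F` which contains `N₀`. -/
theorem exists_big {K F : Type} [Field K] [NumberField K] [Field F] [Algebra K F] [IsGalois K F]
    (M : IntermediateField K F) [NumberField M] {ι : Type} (s : Finset ι)
    (N₀ : ι → IntermediateField K F) (h : ∀ i ∈ s, FiniteDimensional K (N₀ i)) :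
    ∃ (N : IntermediateField K F) (_ : NumberField N), IsGalois K N ∧ M ≤ N ∧
      ∀ i ∈ s, N₀ i ≤ N := by
  have hM : FiniteDimensional K M := Module.Finite.of_restrictScalars_finite ℚ K M
  obtain ⟨L, hL⟩ : ∃ L : IntermediateField K F, L = ⨆ i ∈ s, N₀ i := ⟨_, rfl⟩
  have hLf : FiniteDimensional K L := by
    rw [hL]
    exact IntermediateField.finiteDimensional_iSup_of_finset' h
  have hLi : ∀ i ∈ s, N₀ i ≤ L := by
    intro i hi
    rw [hL]
    exact le_iSup₂_of_le i hi le_rfl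
  have hE : FiniteDimensional K (M ⊔ L : IntermediateField K F) :=
    IntermediateField.finiteDimensional_sup M L
  let N : IntermediateField K F :=
    IntermediateField.normalClosure K (M ⊔ L : IntermediateField K F) F
  have hN : FiniteDimensional K N := normalClosure.is_finiteDimensional K _ F
  have hNn : Normal K N := normalClosure.normal K _ F
  have hle : M ⊔ L ≤ N := IntermediateField.le_normalClosure _
  refine ⟨N, NumberField.of_module_finite K N, ?_, le_sup_left.trans hle, fun i hi =>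
    (hLi i hi).trans (le_sup_right.trans hle)⟩
  exact ⟨⟩

/-- The theorem for a finite or infinite extension `F / K` with infinitely many completely split primes,
given the local data above two. -/
theorem main_inf_of (K F : Type) [Field K] [NumberField K] [Field F] [Algebra K F] [IsGalois K F]
    (hdeg : ∀ (N : IntermediateField K F) [NumberField N], IsGalois K N →
      ∃ r : ℕ, Module.finrank K N = 2 ^ r)
    (hram : {v : HeightOneSpectrum (𝓞 K) | ∃ (N : IntermediateField K F) (_ : NumberField N)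
      (V : HeightOneSpectrum (𝓞 N)), dn K V = v ∧ H73P2.Ram K V}.Finite)
    (hspl : {v : HeightOneSpectrum (𝓞 K) | ∃ ι : F →+* v.adicCompletion K, ∀ x : K,
      ι (algebraMap K F x) = algebraMap K (v.adicCompletion K) x}.Infinite)
    (hloc : ∀ v : HeightOneSpectrum (𝓞 K), (2 : 𝓞 K) ∈ v.asIdeal → ∃ (e : ℕ) (A₀ B₀ : 𝓞 K)
      (N₀ : IntermediateField K F), FiniteDimensional K N₀ ∧ dsc A₀ B₀ ∉ v.asIdeal ^ e ∧
      ∀ A B : 𝓞 K, A - A₀ ∈ v.asIdeal ^ e → B - B₀ ∈ v.asIdeal ^ e →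
        ∀ (N : IntermediateField K F) [NumberField N], IsGalois K N → N₀ ≤ N →
          H36CY.DescAt K N v (A : K) (B : K)) :
    ∃ (c X₀ : ℝ), 0 < c ∧ ∀ X : ℝ, X₀ ≤ X → ∃ G : Finset (𝓞 K × 𝓞 K),
      (∀ p ∈ G, p ∈ Bx K X ∧ 4 * p.1 ^ 3 + 27 * p.2 ^ 2 ≠ 0 ∧
        Finite (⟨0, 0, 0, algebraMap K F p.1, algebraMap K F p.2⟩ :
          WeierstrassCurve F).toAffine.Point ∧
        ∀ (M : IntermediateField K F) [NumberField M],
          Finite (⟨0, 0, 0, algebraMap K M p.1, algebraMap K M p.2⟩ :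
            WeierstrassCurve M).toAffine.Point ∧
          Pool.Agent.H10.Sha2Trivial M
            (⟨0, 0, 0, algebraMap K M p.1, algebraMap K M p.2⟩ : WeierstrassCurve M)) ∧
      (∀ p ∈ G, ∀ q ∈ G, p.1 ^ 3 * q.2 ^ 2 = q.1 ^ 3 * p.2 ^ 2 → p = q) ∧
      c * ((Bx K X).ncard : ℝ) ≤ (G.card : ℝ) := by
  have hloc' : ∀ v : HeightOneSpectrum (𝓞 K), ∃ (e : ℕ) (A₀ B₀ : 𝓞 K)
      (N₀ : IntermediateField K F), FiniteDimensional K N₀ ∧ ((2 : 𝓞 K) ∈ v.asIdeal →
      dsc A₀ B₀ ∉ v.asIdeal ^ e ∧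
      ∀ A B : 𝓞 K, A - A₀ ∈ v.asIdeal ^ e → B - B₀ ∈ v.asIdeal ^ e →
        ∀ (N : IntermediateField K F) [NumberField N], IsGalois K N → N₀ ≤ N →
          H36CY.DescAt K N v (A : K) (B : K)) := by
    intro v
    by_cases hv : (2 : 𝓞 K) ∈ v.asIdeal
    · obtain ⟨e, A₀, B₀, N₀, h1, h2, h3⟩ := hloc v hv
      exact ⟨e, A₀, B₀, N₀, h1, fun _ => ⟨h2, h3⟩⟩
    · exact ⟨0, 0, 0, ⊥, inferInstance, fun h => absurd h hv⟩
  choose e A₀ B₀ N₀ hN₀ hcl using hloc'
  obtain ⟨S, hSv⟩ := two_fin K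
  obtain ⟨R, hR⟩ : ∃ R : Finset (HeightOneSpectrum (𝓞 K)), ∀ v, v ∈ R ↔
      ((∃ (N : IntermediateField K F) (_ : NumberField N)
      (V : HeightOneSpectrum (𝓞 N)), dn K V = v ∧ H73P2.Ram K V) ∧ (2 : 𝓞 K) ∉ v.asIdeal) := by
    refine ⟨hram.toFinset.filter fun v => (2 : 𝓞 K) ∉ v.asIdeal, fun v => ?_⟩
    rw [Finset.mem_filter, Set.Finite.mem_toFinset]
    rfl
  obtain ⟨T, c, X₀, hT, hc, h⟩ := main_gen K R (fun v hv => ((hR v).1 hv).2) hspl e A₀ B₀
    (fun v hv => (hcl v hv).1)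
  refine ⟨c, X₀, hc, fun X hX => ?_⟩
  obtain ⟨G, hG, hj, hcard⟩ := h X hX
  refine ⟨G, fun p hp => ?_, hj, hcard⟩
  obtain ⟨hB, hne, hpc, hall⟩ := hG p hp
  have hM : ∀ (M : IntermediateField K F) [NumberField M],
      Finite (⟨0, 0, 0, algebraMap K M p.1, algebraMap K M p.2⟩ :
        WeierstrassCurve M).toAffine.Point ∧
      Pool.Agent.H10.Sha2Trivial M
        (⟨0, 0, 0, algebraMap K M p.1, algebraMap K M p.2⟩ : WeierstrassCurve M) := by
    intro M _
    obtain ⟨N, _, hNg, hMN, hNi⟩ := exists_big M S N₀ fun v _ => hN₀ v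
    let _ : Algebra M N := (IntermediateField.inclusion hMN).toRingHom.toAlgebra
    have _ : IsScalarTower K M N := IsScalarTower.of_algebraMap_eq fun _ => rfl
    refine hall N ⟨hNg, hdeg N hNg, ?_, ?_, ?_⟩ M
    · intro V h2 hV
      exact (hR _).2 ⟨⟨N, inferInstance, V, rfl, hV⟩, h2⟩
    · intro v hv
      obtain ⟨ι, hι⟩ := hT v hv
      exact ⟨ι.comp N.val.toRingHom, fun x => hι x⟩
    · intro v hv
      obtain ⟨h1, h2⟩ := hpc v hv
      exact (hcl v hv).2 p.1 p.2 h1 h2 N hNg (hNi v ((hSv v).2 hv))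
  refine ⟨hB, hne, ?_, fun M _ => hM M⟩
  obtain ⟨l, l', v, v', ⟨ι, hι⟩, ⟨ι', hι'⟩, hl, hl', hll, hv, hv', hg, hg'⟩ := exists_two_in hspl hne
  exact fin_any (fun M _ => (hM M).1) (H73P2.tors_emb hl hl' hll hv hv' hg hg' ι hι ι' hι')

end H30CY
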