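import Pool.Agent.H36.MT.As1

/-!
The Selmer groups of the twists for a finite set `S` which contains the primes above two but not
necessarily those above three (for MP_78d38b_CY; modification of `Pool/Agent/H36/MT/Tj.lean`,
`As1.lean`, proved).
-/

set_option autoImplicit false
set_option linter.unusedSectionVars false
open scoped Classical

open WithZero NumberField IsDedekindDomain H38RT
open H38T1 (SC sc scu rep eo la si Pri OddP tp unif)
open H76PP H36MT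

namespace H30CY

theorem rel_S2 {K : Type} [Field K] [NumberField K] {S : Finset (HeightOneSpectrum (𝓞 K))}
    (hS2 : ∀ v : HeightOneSpectrum (𝓞 K), v.valuation K 2 < 1 → v ∈ S) {e₀ : ℕ}
    {q₀ : HeightOneSpectrum (𝓞 K)}
    {T : Finset (HeightOneSpectrum (𝓞 K))}
    (hT : ∀ v ∈ T, v ≠ q₀ ∧ v ∉ S ∧ (6 : 𝓞 K) ∉ v.asIdeal)
    {A B : 𝓞 K} (hF : FamS S e₀ q₀ T A B) (hB : ¬ BadS S T A B) {L : Type} [Field L] [NumberField L]
    [Algebra K L] {θ : L} (hL : Cub K L (A : K) (B : K) θ) (hR : HR2 K L A B θ) :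
    ∃ J ⊆ T, ∀ D : K, TwS S q₀ J D → ∀ P : Finset (HeightOneSpectrum (𝓞 K)), S ⊆ P → J ⊆ P →
      RelTriv K L P (D ^ 2 * A) (D ^ 3 * B) (algebraMap K L D * θ) := by
  obtain ⟨w₀, -⟩ := exists_above (L := L) q₀
  have : Nonempty (HeightOneSpectrum (𝓞 L)) := ⟨w₀⟩
  have h6 : ∀ v ∈ T, (6 : 𝓞 K) ∉ v.asIdeal := fun v hv => (hT v hv).2.2
  have h2 : ∀ v ∈ T, ∃ w₁ w₂ : HeightOneSpectrum (𝓞 L), Two K θ v w₁ w₂ := fun v hv =>
    exists_twoL hL (hF.sqf v (hT v hv).2.1) (h6 v hv) (hF.typ v hv)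
  choose! w₁ w₂ hw using h2
  have hodd : ∀ v ∈ T, OddP v := fun v hv => TjS_odd (h6 v hv)
  have hodd1 : ∀ v ∈ T, OddP (w₁ v) := fun v hv => by
    rw [oddP_dn (K := K), (hw v hv).dn1]
    exact hodd v hv
  have hodd2 : ∀ v ∈ T, OddP (w₂ v) := fun v hv => by
    rw [oddP_dn (K := K), (hw v hv).dn2]
    exact hodd v hv
  have hu : ∃ u : HeightOneSpectrum (𝓞 K) → SC L →+ ZMod 2, ∀ v ∈ T, ∀ c, u v c = la (w₁ v) c := by
    refine ⟨fun v => if h : v ∈ T then ⟨⟨la (w₁ v), H38T1.la_zero (hodd1 v h)⟩,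
      H38T1.la_add (hodd1 v h)⟩ else 0, fun v hv c => ?_⟩
    beta_reduce
    rw [dif_pos hv]
    rfl
  obtain ⟨u, hu⟩ := hu
  let Y : Set (SC L) := {c | ∃ d : Fin 3 → K, ev θ d ≠ 0 ∧ c = sc (ev θ d) ∧
    IsSquare (Algebra.norm K (ev θ d)) ∧ (∀ w, dn K w ∉ S → eo w c = 0) ∧
    (∀ v ∈ S, LC (algebraMap K (v.adicCompletion K)) (A : K) (B : K) d) ∧
    ∀ s : K →+* ℝ, LC s (A : K) (B : K) d}
  have hYn : ∀ c ∈ Y, scm (Algebra.norm K : L →* K) c = 0 := by
    rintro c ⟨d, hd, rfl, hs, -⟩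
    rw [scm_sc _ hd]
    exact (H38T1.sc_eq_zero (scm_ne _ hd)).2 hs
  have hH : ∀ c ∈ AddSubgroup.closure Y, (∀ w, dn K w ∉ S → eo w c = 0) ∧
      scm (Algebra.norm K : L →* K) c = 0 := by
    intro c hc
    induction hc using AddSubgroup.closure_induction with
    | mem c hc =>
      refine ⟨?_, hYn c hc⟩
      obtain ⟨d, -, -, -, h, -⟩ := hc
      exact h
    | zero => exact ⟨fun w _ => H38T1.eo_zero w, map_zero _⟩
    | add c c' _ _ h h' =>
      refine ⟨fun w hwS => ?_, ?_⟩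
      · rw [H38T1.eo_add, h.1 w hwS, h'.1 w hwS, add_zero]
      · rw [map_add, h.2, h'.2, add_zero]
    | neg c _ h =>
      rw [TjS_neg]
      exact h
  have hla : ∀ v ∈ T, ∀ c ∈ AddSubgroup.closure Y, la (w₁ v) c = la (w₂ v) c := fun v hv c hc =>
    TjS_la hR (hodd v hv) (hw v hv)
      ((hH c hc).1 _ (by rw [(hw v hv).dn1]; exact (hT v hv).2.1))
      ((hH c hc).1 _ (by rw [(hw v hv).dn2]; exact (hT v hv).2.1)) (hH c hc).2
  have hker : ∀ y ∈ AddSubgroup.closure Y, (∀ v ∈ T, u v y = 0) → y = 0 := by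
    intro c hc h
    by_contra hne
    refine hB ⟨L, _, _, _, θ, c, hL, hne, (hH c hc).2, (hH c hc).1, fun w hwT => ?_⟩
    have h3 : la (w₁ (dn K w)) c = 0 := by
      rw [← hu _ hwT]
      exact h _ hwT
    rcases (hw _ hwT).only w rfl with h4 | h4
    · rw [h4]
      exact h3
    · rw [h4, ← hla _ hwT c hc]
      exact h3
  obtain ⟨J, hJT, hJ1, hJ2⟩ := exists_J (AddSubgroup.closure Y) T u hker
  refine ⟨J, hJT, fun D hD P hSP hJP d' hd' hsq heoP hLC hLCr => ?_⟩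
  set δ := ev (algebraMap K L D * θ) d' with hδ
  have hev : ev θ (fun j => d' j * D ^ (j : ℕ)) = δ := by
    rw [hδ]
    simp only [ev, map_mul, map_pow, Fin.val_zero, Fin.val_one, Fin.val_two]
    ring
  have hd : ev θ (fun j => d' j * D ^ (j : ℕ)) ≠ 0 := by
    rw [hev]
    exact hd'
  have hLS : ∀ v ∈ S,
      LC (algebraMap K (v.adicCompletion K)) (A : K) (B : K) (fun j => d' j * D ^ (j : ℕ)) := by
    intro v hv
    obtain ⟨m, hm, h⟩ := hD.loc v hv
    obtain ⟨r, hr⟩ := sq_S hm h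
    exact LC_twist _ hD.ne hr (hLC v (hSP hv))
  have hLr : ∀ s : K →+* ℝ, LC s (A : K) (B : K) (fun j => d' j * D ^ (j : ℕ)) := by
    intro s
    exact LC_twist _ hD.ne (Real.sq_sqrt (hD.pos s).le).symm (hLCr s)
  have hoff : ∀ w : HeightOneSpectrum (𝓞 L), dn K w ∉ S → dn K w ∉ J → eo w (sc δ) = 0 := by
    intro w hwS hwJ
    by_cases hwP : dn K w ∈ P
    · exact even_offS hF hL hD hd' hwS hwJ (hLC _ hwP)
    · exact heoP w hwP
  have hat : ∀ v ∈ J, eo (w₁ v) (sc δ) = 0 ∧ (eo (w₂ v) (sc δ) = 0 → la (w₁ v) (sc δ) = 0 ∧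
      la (w₂ v) (sc δ) = 0) := fun v hv =>
    at_JS hF hL hD hd' hv (hT v (hJT hv)).2.1 (h6 v (hJT hv)) (hw v (hJT hv)) (hLC _ (hJP hv))
  have hrel : ∀ y ∈ AddSubgroup.closure Y, ∑ v ∈ J, eo (w₂ v) (sc δ) * u v y = 0 := by
    intro y hy
    induction hy using AddSubgroup.closure_induction with
    | mem y hy =>
      have hyH : y ∈ AddSubgroup.closure Y := AddSubgroup.subset_closure hy
      obtain ⟨d₁, hd₁, rfl, hs₁, he₁, hl₁, hr₁⟩ := hy
      have h3 := H54MT.iso_S hL hR hS2 (d := fun j => d' j * D ^ (j : ℕ)) (d' := d₁) hd hd₁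
        (by rw [hev]; exact hsq) hs₁
        (fun v hv => ⟨hLS v hv, hl₁ v hv⟩) fun s => ⟨hLr s, hr₁ s⟩
      rw [hev] at h3
      have ht : ∀ w : HeightOneSpectrum (𝓞 L), dn K w ∉ S → tp w (sc δ) (sc (ev θ d₁)) =
          eo w (sc δ) * la w (sc (ev θ d₁)) := by
        intro w hwS
        unfold H38T1.tp
        rw [he₁ w hwS]
        ring
      have hsub : Function.support (fun w : HeightOneSpectrum (𝓞 L) =>
          if dn K w ∉ S then tp w (sc δ) (sc (ev θ d₁)) else 0) ⊆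
            ((J.image w₂ : Finset _) : Set _) := by
        intro w hwS
        by_contra hn
        apply hwS
        change (if dn K w ∉ S then tp w (sc δ) (sc (ev θ d₁)) else 0) = 0
        by_cases hS : dn K w ∉ S
        · have h5 : eo w (sc δ) = 0 := by
            by_cases hwJ : dn K w ∈ J
            · rcases (hw _ (hJT hwJ)).only w rfl with h4 | h4
              · rw [h4]
                exact (hat _ hwJ).1
              · exact absurd (Finset.mem_coe.2 (Finset.mem_image.2 ⟨_, hwJ, h4.symm⟩)) hn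
            · exact hoff w hS hwJ
          rw [ht w hS, h5, zero_mul, ite_self]
        · rw [if_neg hS]
      rw [finsum_eq_sum_of_support_subset _ hsub, Finset.sum_image] at h3
      · rw [← h3]
        refine Finset.sum_congr rfl fun v hv => ?_
        have hnS : dn K (w₂ v) ∉ S := by
          rw [(hw v (hJT hv)).dn2]
          exact (hT v (hJT hv)).2.1
        rw [if_pos hnS, ht _ hnS, hu v (hJT hv), hla v (hJT hv) _ hyH]
      · intro v hv v' hv' h
        rw [← (hw v (hJT hv)).dn2, ← (hw v' (hJT hv')).dn2, h]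
    | zero => simp
    | add y y' _ _ h h' =>
      simp only [map_add, mul_add, Finset.sum_add_distrib]
      rw [h, h', add_zero]
    | neg y _ h =>
      rw [TjS_neg]
      exact h
  have hr := hJ2 (fun v => eo (w₂ v) (sc δ)) hrel
  have heo : ∀ w : HeightOneSpectrum (𝓞 L), dn K w ∉ S → eo w (sc δ) = 0 := by
    intro w hwS
    by_cases hwJ : dn K w ∈ J
    · rcases (hw _ (hJT hwJ)).only w rfl with h4 | h4
      · rw [h4]
        exact (hat _ hwJ).1
      · rw [h4]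
        exact hr _ hwJ
    · exact hoff w hwS hwJ
  have hmem : sc δ ∈ AddSubgroup.closure Y := by
    refine AddSubgroup.subset_closure ⟨fun j => d' j * D ^ (j : ℕ), hd, by rw [hev], ?_, heo, hLS, hLr⟩
    rw [hev]
    exact hsq
  have h0 := hJ1 _ hmem fun v hv => by
    rw [hu v (hJT hv)]
    exact ((hat v hv).2 (hr v hv)).1
  exact (H38T1.sc_eq_zero hd').1 h0


theorem good_S2 {K : Type} [Field K] [NumberField K] {S : Finset (HeightOneSpectrum (𝓞 K))}
    (hS2 : ∀ v : HeightOneSpectrum (𝓞 K), v.valuation K 2 < 1 → v ∈ S) {e₀ : ℕ}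
    {q₀ : HeightOneSpectrum (𝓞 K)}
    {T : Finset (HeightOneSpectrum (𝓞 K))}
    (hT : ∀ v ∈ T, v ≠ q₀ ∧ v ∉ S ∧ (6 : 𝓞 K) ∉ v.asIdeal)
    {A B : 𝓞 K} (hF : FamS S e₀ q₀ T A B) (hB : ¬ BadS S T A B) :
    ∃ J ⊆ T, ∀ D : 𝓞 K, TwS S q₀ J (D : K) → ∀ Sg : Finset (HeightOneSpectrum (𝓞 K)),
      S ⊆ Sg → T ⊆ Sg → q₀ ∈ Sg → RelG K Sg (D ^ 2 * A) (D ^ 3 * B) := by
  obtain ⟨L, _, _, _, θ, hL⟩ := H24PD.exists_cub (fun t => hF.no_root t)
  obtain ⟨J, hJ, hrel⟩ := rel_S2 hS2 hT hF hB hL (hr2 hL hF.dsc_ne)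
  refine ⟨J, hJ, fun D hD Sg hSSg hTSg hq => ?_⟩
  have hD0 : (D : K) ≠ 0 := hD.ne
  have e1 : ((D ^ 2 * A : 𝓞 K) : K) = (D : K) ^ 2 * (A : K) := by push_cast; rfl
  have e2 : ((D ^ 3 * B : 𝓞 K) : K) = (D : K) ^ 3 * (B : K) := by push_cast; rfl
  refine ⟨?_, ?_, ?_, ?_, ?_⟩
  · intro v hv
    exact hSSg (hS2 v hv)
  · intro h4
    have h5 : (4 * ((D : K) ^ 2 * (A : K)) ^ 3 + 27 * ((D : K) ^ 3 * (B : K)) ^ 2) = 0 := by
      rw [← e1, ← e2, ← dsc_coe, h4, map_zero]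
    have h6 : (D : K) ^ 6 * (4 * (A : K) ^ 3 + 27 * (B : K) ^ 2) = 0 := by
      linear_combination h5
    exact (mul_ne_zero (pow_ne_zero 6 hD0) hF.dsc_ne) h6
  · rw [e1, e2]
    intro t ht
    apply hF.no_root (t / (D : K))
    have h7 : (D : K) ^ 3 * ((t / (D : K)) ^ 3 + (A : K) * (t / (D : K)) + (B : K)) = 0 := by
      field_simp
      linear_combination ht
    exact (mul_eq_zero.1 h7).resolve_left (pow_ne_zero 3 hD0)
  · rw [e1, e2]
    intro v hv
    exact nice_tw hF hD (fun h => hv (hSSg h)) (fun h => hv (hTSg (hJ h)))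
      (fun h => hv (h ▸ hq))
  · rw [e1, e2]
    intro L' _ _ _ θ' hL'
    exact (RelTriv.equiv (hL.twist hD0) hL'
      (hrel (D : K) hD Sg hSSg (hJ.trans hTSg))).toRelT

end H30CY
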