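import Pool.Agent.H30.CY.Fl
import Pool.Agent.H30.CY.Rs
import Pool.Agent.H30.CY.Au
import Pool.Agent.H36.MT.Zc
import Pool.Agent.H36.MT.Tw
import Pool.Agent.H36.MT.Js
import Pool.Agent.H76.PP.Zd

/-!
Counting for the project MP_78d38b_CY: the family with prescribed residue classes, the auxiliary primes
inside a given infinite set (modification of `Pool/Agent/H30/PN/Cn.lean`); no row, proved.
-/

set_option autoImplicit false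
set_option linter.unusedSectionVars false
open scoped Classical

open WithZero NumberField IsDedekindDomain H38RT H76PP H36MT
open H38T1 (SC sc scu rep eo la si Pri OddP tp unif)

namespace H30CY

variable {K : Type} [Field K] [NumberField K]

/-- The auxiliary primes inside a given infinite set and the number of pairs in a residue class with
totally positive `A` which are not bad (modification of `H30PN.main_in`). -/
theorem main_inS (H : Blocks K) {S : Finset (HeightOneSpectrum (𝓞 K))}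
    (hSv : ∀ v : HeightOneSpectrum (𝓞 K), v ∈ S ↔ (2 : 𝓞 K) ∈ v.asIdeal) {e : ℕ} (he : 1 ≤ e)
    {Z : Set (HeightOneSpectrum (𝓞 K))} (hZ : Z.Infinite)
    {m : Ideal (𝓞 K)} (hm0 : m ≠ ⊥) (hmZ : ∀ v ∈ Z, ¬ m ≤ v.asIdeal ∧ (6 : 𝓞 K) ∉ v.asIdeal)
    {A₀ B₀ : 𝓞 K} (hmS : ∀ v ∈ S, m ≤ v.asIdeal ^ e ∧ dsc A₀ B₀ ∉ v.asIdeal ^ e)
    (hm : ∀ v : HeightOneSpectrum (𝓞 K), v ∉ S → m ≤ v.asIdeal → dsc A₀ B₀ ∉ v.asIdeal) :
    ∃ (q₀ : HeightOneSpectrum (𝓞 K))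
    (T : Finset (HeightOneSpectrum (𝓞 K))) (c X₀ : ℝ), q₀ ∈ Z ∧
      (∀ v ∈ T, v ∈ Z ∧ v ≠ q₀) ∧ 0 < c ∧ ∀ X : ℝ, X₀ ≤ X →
        c * X ^ (5 * Module.finrank ℚ K) ≤
          ({p : 𝓞 K × 𝓞 K | p ∈ Bx K X ∧ FamS S e q₀ T p.1 p.2 ∧ (p.1 - A₀ ∈ m ∧ p.2 - B₀ ∈ m ∧
            ∀ s : K →+* ℝ, 0 < s (p.1 : K)) ∧ ¬ BadS S T p.1 p.2}.ncard : ℝ) := by
  obtain ⟨q₀, hq₀⟩ := hZ.nonempty
  have h6 := (hmZ q₀ hq₀).2
  have hinf : (Z \ {q₀}).Infinite := hZ.sdiff (Set.finite_singleton q₀)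
  obtain ⟨C₄, N₀, hC, hbad⟩ := bad_countS K (H36PP.Bx_finite K) S e he
  obtain ⟨c₃, hc₃, hfam⟩ := famS_lower_in K hSv (e := e) q₀ h6 hm0 (hmZ q₀ hq₀).1 hmS hm
  -- the number of auxiliary primes
  obtain ⟨k, hk⟩ := exists_pow_lt_of_lt_one (x := c₃ / (2 * C₄)) (y := (0.55 : ℝ))
    (by positivity) (by norm_num)
  obtain ⟨T, hT, hTk⟩ := exists_T hinf (max N₀ 40) k
  have hTZ : ∀ v ∈ T, v ∈ Z ∧ v ≠ q₀ := fun v hv => ⟨(hT v hv).1.1, (hT v hv).1.2⟩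
  have hTS : ∀ v ∈ T, v ∉ S := by
    intro v hv hvS
    apply (hmZ v (hTZ v hv).1).2
    rw [show (6 : 𝓞 K) = 3 * 2 by norm_num]
    exact v.asIdeal.mul_mem_left _ ((hSv v).1 hvS)
  obtain ⟨X₁, h1⟩ := hfam T (fun v hv => ⟨(hTZ v hv).2, (hmZ v (hTZ v hv).1).2,
    (hmZ v (hTZ v hv).1).1⟩)
  obtain ⟨X₂, h2⟩ := hbad q₀ T (fun v hv => ⟨(le_max_left _ _).trans (hT v hv).2,
    (hmZ v (hTZ v hv).1).2, hTS v hv⟩)
  set P : ℝ := ∏ v ∈ T, (1 / 2 * (1 - 1 / (Nv v : ℝ))) with hP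
  have hPpos : 0 < P := by
    refine Finset.prod_pos fun v hv => ?_
    have h3 : 40 ≤ Nv v := (le_max_right _ _).trans (hT v hv).2
    have h4 : (40 : ℝ) ≤ (Nv v : ℝ) := by exact_mod_cast h3
    have h5 : 1 / (Nv v : ℝ) ≤ 1 / 40 := one_div_le_one_div_of_le (by norm_num) h4
    nlinarith
  refine ⟨q₀, T, c₃ * P / 2, max (max X₁ X₂) 0, hq₀, hTZ, by positivity, ?_⟩
  intro X hX
  have hX1 : X₁ ≤ X := (le_max_left _ _).trans ((le_max_left _ _).trans hX)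
  have hX2 : X₂ ≤ X := (le_max_right _ _).trans ((le_max_left _ _).trans hX)
  have hX0 : 0 ≤ X := (le_max_right _ _).trans hX
  have e1 := h1 X hX1
  have e2 := h2 X hX2
  have e3 := prod_ratio_le (T := T) (fun v hv => (le_max_right _ _).trans (hT v hv).2)
  rw [hTk, ← hP] at e3
  have hXp : 0 ≤ X ^ (5 * Module.finrank ℚ K) := by positivity
  have hk' : C₄ * 0.55 ^ k ≤ c₃ / 2 := by
    have h7 : C₄ * 0.55 ^ k ≤ C₄ * (c₃ / (2 * C₄)) := mul_le_mul_of_nonneg_left hk.le hC.le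
    have h8 : C₄ * (c₃ / (2 * C₄)) = c₃ / 2 := by field_simp
    rwa [h8] at h7
  have e4 : C₄ * (∏ v ∈ T, ((1 + 1 / (Nv v : ℝ)) ^ 2 / 4)) * X ^ (5 * Module.finrank ℚ K) ≤
      c₃ / 2 * P * X ^ (5 * Module.finrank ℚ K) := by
    refine mul_le_mul_of_nonneg_right ?_ hXp
    calc C₄ * (∏ v ∈ T, ((1 + 1 / (Nv v : ℝ)) ^ 2 / 4)) ≤ C₄ * (0.55 ^ k * P) :=
          mul_le_mul_of_nonneg_left e3 hC.le
      _ = (C₄ * 0.55 ^ k) * P := by ring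
      _ ≤ c₃ / 2 * P := mul_le_mul_of_nonneg_right hk' hPpos.le
  -- the family is the union of the bad and the good pairs
  have hfin : {p : 𝓞 K × 𝓞 K | p ∈ Bx K X ∧ FamS S e q₀ T p.1 p.2 ∧ (p.1 - A₀ ∈ m ∧ p.2 - B₀ ∈ m ∧
      ∀ s : K →+* ℝ, 0 < s (p.1 : K)) ∧ ¬ BadS S T p.1 p.2}.Finite :=
    (H.fin X).subset fun p hp => hp.1
  have hfinb : {p : 𝓞 K × 𝓞 K | p ∈ Bx K X ∧ FamS S e q₀ T p.1 p.2 ∧ BadS S T p.1 p.2}.Finite :=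
    (H.fin X).subset fun p hp => hp.1
  have e5 : ({p : 𝓞 K × 𝓞 K | p ∈ Bx K X ∧ FamS S e q₀ T p.1 p.2 ∧ p.1 - A₀ ∈ m ∧ p.2 - B₀ ∈ m ∧
        ∀ s : K →+* ℝ, 0 < s (p.1 : K)}.ncard : ℝ) ≤
      ({p : 𝓞 K × 𝓞 K | p ∈ Bx K X ∧ FamS S e q₀ T p.1 p.2 ∧ BadS S T p.1 p.2}.ncard : ℝ) +
      ({p : 𝓞 K × 𝓞 K | p ∈ Bx K X ∧ FamS S e q₀ T p.1 p.2 ∧ (p.1 - A₀ ∈ m ∧ p.2 - B₀ ∈ m ∧
        ∀ s : K →+* ℝ, 0 < s (p.1 : K)) ∧ ¬ BadS S T p.1 p.2}.ncard : ℝ) := by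
    have h9 : {p : 𝓞 K × 𝓞 K | p ∈ Bx K X ∧ FamS S e q₀ T p.1 p.2 ∧ p.1 - A₀ ∈ m ∧ p.2 - B₀ ∈ m ∧
        ∀ s : K →+* ℝ, 0 < s (p.1 : K)} ⊆
        {p : 𝓞 K × 𝓞 K | p ∈ Bx K X ∧ FamS S e q₀ T p.1 p.2 ∧ BadS S T p.1 p.2} ∪
        {p : 𝓞 K × 𝓞 K | p ∈ Bx K X ∧ FamS S e q₀ T p.1 p.2 ∧ (p.1 - A₀ ∈ m ∧ p.2 - B₀ ∈ m ∧
          ∀ s : K →+* ℝ, 0 < s (p.1 : K)) ∧ ¬ BadS S T p.1 p.2} := by
      rintro p ⟨h10, h11, h13⟩
      by_cases h12 : BadS S T p.1 p.2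
      · exact Or.inl ⟨h10, h11, h12⟩
      · exact Or.inr ⟨h10, h11, h13, h12⟩
    have h13 := (Set.ncard_le_ncard h9 (hfinb.union hfin)).trans (Set.ncard_union_le _ _)
    exact_mod_cast h13
  have e6 : c₃ * P * X ^ (5 * Module.finrank ℚ K) =
      c₃ * P / 2 * X ^ (5 * Module.finrank ℚ K) + c₃ / 2 * P * X ^ (5 * Module.finrank ℚ K) := by
    ring
  linarith

/-- The pigeonhole argument for a general property `Gd` of the twisted pairs and a subfamily `P`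
(modification of `H76PP.Blocks.result2`). -/
theorem count_genS (H : Blocks K) {S : Finset (HeightOneSpectrum (𝓞 K))} {e : ℕ}
    {q₀ : HeightOneSpectrum (𝓞 K)} {T : Finset (HeightOneSpectrum (𝓞 K))} {m' : Ideal (𝓞 K)}
    (htw0 : ∀ J ⊆ T, ∃ D : 𝓞 K, D - 1 ∈ m' ∧ TwS S q₀ J (D : K))
    (P Gd : 𝓞 K × 𝓞 K → Prop) {c X₀ : ℝ} (hc : 0 < c)
    (hmain : ∀ X : ℝ, X₀ ≤ X → c * X ^ (5 * Module.finrank ℚ K) ≤
      ({p : 𝓞 K × 𝓞 K | p ∈ Bx K X ∧ FamS S e q₀ T p.1 p.2 ∧ P p ∧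
        ¬ BadS S T p.1 p.2}.ncard : ℝ))
    (hgood : ∀ p : 𝓞 K × 𝓞 K, FamS S e q₀ T p.1 p.2 → P p → ¬ BadS S T p.1 p.2 →
      ∃ J ⊆ T, ∀ D : 𝓞 K, D - 1 ∈ m' → TwS S q₀ J (D : K) → Gd (D ^ 2 * p.1, D ^ 3 * p.2)) :
    ∃ (c X₀ : ℝ), 0 < c ∧ ∀ X : ℝ, X₀ ≤ X →
    ∃ G : Finset (𝓞 K × 𝓞 K), (∀ p ∈ G, p ∈ Bx K X ∧ Gd p) ∧
      (∀ p ∈ G, ∀ q ∈ G, p.1 ^ 3 * q.2 ^ 2 = q.1 ^ 3 * p.2 ^ 2 → p = q) ∧
      c * ((Bx K X).ncard : ℝ) ≤ (G.card : ℝ) := by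
  obtain ⟨C, hC, hup⟩ := H.up
  obtain ⟨ε, X₁, hε, hε1, hsmall⟩ := H.small (δ := c / 2) (by positivity)
  obtain ⟨M, hM⟩ := exists_subS K S e hε
  -- the twisting factors
  have htw : ∀ J : Finset (HeightOneSpectrum (𝓞 K)), ∃ D : 𝓞 K, J ⊆ T →
      D - 1 ∈ m' ∧ TwS S q₀ J (D : K) := by
    intro J
    by_cases hJ : J ⊆ T
    · obtain ⟨D, hD⟩ := htw0 J hJ
      exact ⟨D, fun _ => hD⟩
    · exact ⟨0, fun h => absurd h hJ⟩
  choose D hD using htw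
  choose t ht using fun J => exists_bx (D J)
  set κ : ℝ := 1 + ∑ J ∈ T.powerset, |t J| with hκ
  have hκ1 : 1 ≤ κ := by
    have : 0 ≤ ∑ J ∈ T.powerset, |t J| := Finset.sum_nonneg fun _ _ => abs_nonneg _
    linarith
  have hκD : ∀ J ⊆ T, D J ∈ bx K κ := by
    intro J hJ
    refine bx_mono ?_ (ht J)
    have h1 : |t J| ≤ ∑ J ∈ T.powerset, |t J| :=
      Finset.single_le_sum (f := fun J => |t J|) (fun _ _ => abs_nonneg _)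
        (Finset.mem_powerset.2 hJ)
    have := le_abs_self (t J)
    linarith
  set n := Module.finrank ℚ K with hn
  refine ⟨(c / 2) / ((M + 1) * (2 ^ T.card * (C * κ ^ (5 * n)))), κ * max (max X₀ X₁) 1,
    by positivity, ?_⟩
  intro Y hY
  set X := Y / κ with hXdef
  have hκ0 : 0 < κ := by linarith
  have hYX : Y = κ * X := by rw [hXdef]; field_simp
  have hX : max (max X₀ X₁) 1 ≤ X := by
    rw [hXdef, le_div_iff₀ hκ0, mul_comm]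
    exact hY
  have hX0 : X₀ ≤ X := (le_max_left _ _).trans ((le_max_left _ _).trans hX)
  have hX1' : X₁ ≤ X := (le_max_right _ _).trans ((le_max_left _ _).trans hX)
  have hX1 : 1 ≤ X := (le_max_right _ _).trans hX
  have hY1 : 1 ≤ Y := by rw [hYX]; nlinarith
  -- the good pairs without small conjugates and the choice of the twisting factor
  set G₀ : Set (𝓞 K × 𝓞 K) := {p | p ∈ Bx K X ∧ FamS S e q₀ T p.1 p.2 ∧ P p ∧ ¬ BadS S T p.1 p.2} with hG₀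
  set G : Set (𝓞 K × 𝓞 K) := {p | p ∈ G₀ ∧ ∀ s : K →+* ℂ, ε * X ^ 2 ≤ ‖s (p.1 : K)‖} with hG
  have hG₀fin : G₀.Finite := (H.fin X).subset fun p hp => hp.1
  have hGfin : G.Finite := hG₀fin.subset fun p hp => hp.1
  have hGcard : c / 2 * X ^ (5 * n) ≤ (G.ncard : ℝ) := by
    have h1 := hmain X hX0
    have h2 := hsmall X hX1'
    have hsfin : {p : 𝓞 K × 𝓞 K | p ∈ Bx K X ∧
        ∃ s : K →+* ℂ, ‖s (p.1 : K)‖ < ε * X ^ 2}.Finite := (H.fin X).subset fun p hp => hp.1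
    have h3 : G₀ ⊆ G ∪ {p : 𝓞 K × 𝓞 K | p ∈ Bx K X ∧
        ∃ s : K →+* ℂ, ‖s (p.1 : K)‖ < ε * X ^ 2} := by
      intro p hp
      by_cases h4 : ∀ s : K →+* ℂ, ε * X ^ 2 ≤ ‖s (p.1 : K)‖
      · exact Or.inl ⟨hp, h4⟩
      · push Not at h4
        exact Or.inr ⟨hp.1, h4⟩
    have h5 := (Set.ncard_le_ncard h3 (hGfin.union hsfin)).trans (Set.ncard_union_le _ _)
    have h6 : (G₀.ncard : ℝ) ≤ (G.ncard : ℝ) + ({p : 𝓞 K × 𝓞 K | p ∈ Bx K X ∧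
        ∃ s : K →+* ℂ, ‖s (p.1 : K)‖ < ε * X ^ 2}.ncard : ℝ) := by exact_mod_cast h5
    have h7 : c * X ^ (5 * n) = c / 2 * X ^ (5 * n) + c / 2 * X ^ (5 * n) := by ring
    linarith
  have hJ : ∀ p : 𝓞 K × 𝓞 K, ∃ J : Finset (HeightOneSpectrum (𝓞 K)), p ∈ G →
      J ⊆ T ∧ Gd (D J ^ 2 * p.1, D J ^ 3 * p.2) := by
    intro p
    by_cases hp : p ∈ G
    · obtain ⟨J, hJ, h1⟩ := hgood p hp.1.2.1 hp.1.2.2.1 hp.1.2.2.2
      exact ⟨J, fun _ => ⟨hJ, h1 (D J) (hD J hJ).1 (hD J hJ).2⟩⟩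
    · exact ⟨∅, fun h => absurd h hp⟩
  choose J hJ using hJ
  -- pigeonhole
  have hpig : ∃ J₀ ∈ T.powerset, (G.ncard : ℝ) ≤
      2 ^ T.card * ({p ∈ hGfin.toFinset | J p = J₀}.card : ℝ) := by
    by_contra hcon
    push Not at hcon
    have h1 : hGfin.toFinset.card = ∑ J₀ ∈ T.powerset, {p ∈ hGfin.toFinset | J p = J₀}.card := by
      refine Finset.card_eq_sum_card_fiberwise fun p hp => ?_
      exact Finset.mem_coe.2 (Finset.mem_powerset.2 (hJ p (by simpa using hp)).1)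
    have h2 : (G.ncard : ℝ) = ∑ J₀ ∈ T.powerset,
        ({p ∈ hGfin.toFinset | J p = J₀}.card : ℝ) := by
      rw [Set.ncard_eq_toFinset_card G hGfin, h1]
      push_cast
      rfl
    have h3 : (2 : ℝ) ^ T.card * ∑ J₀ ∈ T.powerset, ({p ∈ hGfin.toFinset | J p = J₀}.card : ℝ) <
        ∑ J₀ ∈ T.powerset, (G.ncard : ℝ) := by
      rw [Finset.mul_sum]
      exact Finset.sum_lt_sum_of_nonempty ⟨∅, Finset.empty_mem_powerset _⟩ hcon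
    rw [← h2, Finset.sum_const, Finset.card_powerset, nsmul_eq_mul] at h3
    push_cast at h3
    exact lt_irrefl _ h3
  obtain ⟨J₀, hJ₀, hcard⟩ := hpig
  rw [Finset.mem_powerset] at hJ₀
  obtain ⟨G₁, hG₁, hcard₁, hinj₁⟩ := hM q₀ T X (by linarith)
    ({p ∈ hGfin.toFinset | J p = J₀}) (by
      intro p hp
      rw [Finset.mem_filter, Set.Finite.mem_toFinset] at hp
      exact ⟨hp.1.1.1, hp.1.1.2.1, hp.1.2⟩)
  -- the injection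
  have hD0 : D J₀ ≠ 0 := by
    intro h0
    apply (hD J₀ hJ₀).2.ne
    rw [h0]
    exact map_zero (algebraMap (𝓞 K) K)
  have hi : Set.InjOn (fun p : 𝓞 K × 𝓞 K => (D J₀ ^ 2 * p.1, D J₀ ^ 3 * p.2)) (G₁ : Set _) := by
    intro p _ p' _ hpp
    simp only [Prod.mk.injEq] at hpp
    exact Prod.ext (mul_left_cancel₀ (pow_ne_zero 2 hD0) hpp.1)
      (mul_left_cancel₀ (pow_ne_zero 3 hD0) hpp.2)
  refine ⟨G₁.image (fun p => (D J₀ ^ 2 * p.1, D J₀ ^ 3 * p.2)), ?_, ?_, ?_⟩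
  · intro q hq
    rw [Finset.mem_image] at hq
    obtain ⟨p, hp, rfl⟩ := hq
    have hp' := hG₁ hp
    rw [Finset.mem_filter, Set.Finite.mem_toFinset] at hp'
    obtain ⟨hpG, hpJ⟩ := hp'
    have h2 := hJ p hpG
    rw [hpJ] at h2
    refine ⟨⟨?_, ?_⟩, h2.2⟩
    · rw [hYX]
      exact bx_int_mul (hκD J₀ hJ₀) hpG.1.1.1
    · rw [hYX]
      exact bx_int_mul3 (hκD J₀ hJ₀) hpG.1.1.2
  · intro q hq q' hq' h
    rw [Finset.mem_image] at hq hq'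
    obtain ⟨p, hp, rfl⟩ := hq
    obtain ⟨p', hp', rfl⟩ := hq'
    have h1 : p = p' := by
      refine hinj₁ p hp p' hp' ?_
      have h2 : D J₀ ^ 12 * (p.1 ^ 3 * p'.2 ^ 2) = D J₀ ^ 12 * (p'.1 ^ 3 * p.2 ^ 2) := by
        change (D J₀ ^ 2 * p.1) ^ 3 * (D J₀ ^ 3 * p'.2) ^ 2 =
          (D J₀ ^ 2 * p'.1) ^ 3 * (D J₀ ^ 3 * p.2) ^ 2 at h
        linear_combination h
      exact mul_left_cancel₀ (pow_ne_zero 12 hD0) h2
    rw [h1]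
  · rw [Finset.card_image_of_injOn hi]
    have h2 := hup Y hY1
    have hpow : Y ^ (5 * n) = κ ^ (5 * n) * X ^ (5 * n) := by rw [hYX, mul_pow]
    have h3 : (({p ∈ hGfin.toFinset | J p = J₀}.card : ℕ) : ℝ) ≤ (M + 1) * (G₁.card : ℝ) := by
      have h4 : (({p ∈ hGfin.toFinset | J p = J₀}.card : ℕ) : ℝ) ≤ M * (G₁.card : ℝ) := by
        exact_mod_cast hcard₁
      have h5 : (0 : ℝ) ≤ (G₁.card : ℝ) := Nat.cast_nonneg _
      linarith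
    calc (c / 2) / ((M + 1) * (2 ^ T.card * (C * κ ^ (5 * n)))) * ((Bx K Y).ncard : ℝ)
        ≤ (c / 2) / ((M + 1) * (2 ^ T.card * (C * κ ^ (5 * n)))) * (C * Y ^ (5 * n)) :=
          mul_le_mul_of_nonneg_left h2 (by positivity)
      _ = (c / 2 * X ^ (5 * n)) / 2 ^ T.card / (M + 1) := by
          rw [hpow]
          field_simp
      _ ≤ (G.ncard : ℝ) / 2 ^ T.card / (M + 1) := by
          refine div_le_div_of_nonneg_right (div_le_div_of_nonneg_right hGcard (by positivity))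
            (by positivity)
      _ ≤ ({p ∈ hGfin.toFinset | J p = J₀}.card : ℝ) / (M + 1) := by
          refine div_le_div_of_nonneg_right ?_ (by positivity)
          rw [div_le_iff₀ (by positivity), mul_comm]
          exact hcard
      _ ≤ (G₁.card : ℝ) := by
          rw [div_le_iff₀ (by positivity), mul_comm]
          exact h3




/-- The counting theorem: residue classes and auxiliary primes given in advance. -/
theorem main_B2 (K : Type) [Field K] [NumberField K] {S : Finset (HeightOneSpectrum (𝓞 K))}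
    (hSv : ∀ v : HeightOneSpectrum (𝓞 K), v ∈ S ↔ (2 : 𝓞 K) ∈ v.asIdeal) {e : ℕ} (he : 1 ≤ e)
    {Z : Set (HeightOneSpectrum (𝓞 K))} (hZ : Z.Infinite) {m : Ideal (𝓞 K)} (hm0 : m ≠ ⊥)
    {A₀ B₀ : 𝓞 K} (hmS : ∀ v ∈ S, m ≤ v.asIdeal ^ e ∧ dsc A₀ B₀ ∉ v.asIdeal ^ e)
    (hm : ∀ v : HeightOneSpectrum (𝓞 K), v ∉ S → m ≤ v.asIdeal → dsc A₀ B₀ ∉ v.asIdeal) :
    ∃ (T : Finset (HeightOneSpectrum (𝓞 K))) (c X₀ : ℝ),
      (∀ v ∈ T, v ∈ Z ∧ v ∉ S ∧ ¬ m ≤ v.asIdeal) ∧ 0 < c ∧ ∀ X : ℝ, X₀ ≤ X →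
        ∃ G : Finset (𝓞 K × 𝓞 K),
          (∀ p ∈ G, p ∈ Bx K X ∧ p.1 - A₀ ∈ m ∧ p.2 - B₀ ∈ m ∧
            (∀ s : K →+* ℝ, 0 < s (p.1 : K)) ∧ RelG K (S ∪ T) p.1 p.2) ∧
          (∀ p ∈ G, ∀ q ∈ G, p.1 ^ 3 * q.2 ^ 2 = q.1 ^ 3 * p.2 ^ 2 → p = q) ∧
          c * ((Bx K X).ncard : ℝ) ≤ (G.card : ℝ) := by
  have H : Blocks K := blocks_of_HR2 K fun h hd => hr2 h hd
  obtain ⟨m', hm'0, hm't, hm'm, hm'S, -⟩ := exists_mod hm0 S
  obtain ⟨Z', hZ'Z, hZ', hZ'm, hZr⟩ := aux_set_in K hm'0 hZ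
  have hmZ : ∀ v ∈ Z', ¬ m ≤ v.asIdeal ∧ (6 : 𝓞 K) ∉ v.asIdeal := fun v hv =>
    ⟨fun h => (hZ'm v hv).1 (hm'm.trans h), (hZ'm v hv).2⟩
  have hS6 : ∀ v : HeightOneSpectrum (𝓞 K), (6 : 𝓞 K) ∉ v.asIdeal → v ∉ S := by
    intro v hv hvS
    apply hv
    rw [show (6 : 𝓞 K) = 3 * 2 by norm_num]
    exact v.asIdeal.mul_mem_left _ ((hSv v).1 hvS)
  have hS2 : ∀ v : HeightOneSpectrum (𝓞 K), v.valuation K 2 < 1 → v ∈ S := by
    intro v hv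
    rw [hSv]
    by_contra h
    have h4 := (v.valuation_eq_one_iff_notMem (K := K) (r := (2 : 𝓞 K))).2 h
    have h5 : v.valuation K (2 : K) = 1 := by
      rw [← h4]
      congr 1
    exact absurd h5 hv.ne
  obtain ⟨q₀, T, c, X₀, hq₀, hT, hc, hmain⟩ := main_inS H hSv he hZ' hm0 hmZ hmS hm
  obtain ⟨c', X₁, hc', h⟩ := count_genS H (S := S) (e := e) (q₀ := q₀) (T := T) (m' := m')
    (fun J hJ => exists_twistS hm'0 hm't hm'S (hZ'm q₀ hq₀).1 fun p hp =>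
      hZr q₀ hq₀ p (hT p (hJ hp)).1 (hT p (hJ hp)).2)
    (fun p => p.1 - A₀ ∈ m ∧ p.2 - B₀ ∈ m ∧ ∀ s : K →+* ℝ, 0 < s (p.1 : K))
    (fun p => p.1 - A₀ ∈ m ∧ p.2 - B₀ ∈ m ∧
            (∀ s : K →+* ℝ, 0 < s (p.1 : K)) ∧ RelG K (S ∪ insert q₀ T) p.1 p.2) hc hmain
    (by
      intro p hF hP hB
      obtain ⟨J, hJ, hg⟩ := good_S2 hS2
        (fun v hv => ⟨(hT v hv).2, hS6 v (hZ'm v (hT v hv).1).2, (hZ'm v (hT v hv).1).2⟩) hF hB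
      refine ⟨J, hJ, fun D hDm hD => ?_⟩
      have hDm' := hm'm hDm
      obtain ⟨h1, h2, h3⟩ := hP
      refine ⟨?_, ?_, ?_, hg D hD _ Finset.subset_union_left ?_ ?_⟩
      · change D ^ 2 * p.1 - A₀ ∈ m
        have e1 : D ^ 2 * p.1 - A₀ = (p.1 - A₀) + (D - 1) * ((D + 1) * p.1) := by ring
        rw [e1]
        exact m.add_mem h1 (m.mul_mem_right _ hDm')
      · change D ^ 3 * p.2 - B₀ ∈ m
        have e1 : D ^ 3 * p.2 - B₀ = (p.2 - B₀) + (D - 1) * ((D ^ 2 + D + 1) * p.2) := by ring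
        rw [e1]
        exact m.add_mem h2 (m.mul_mem_right _ hDm')
      · intro s
        change 0 < s ((D ^ 2 * p.1 : 𝓞 K) : K)
        have e1 : ((D ^ 2 * p.1 : 𝓞 K) : K) = (D : K) ^ 2 * (p.1 : K) := by push_cast; rfl
        rw [e1, map_mul, map_pow]
        exact mul_pos (pow_pos (hD.pos s) 2) (h3 s)
      · exact (Finset.subset_insert _ _).trans Finset.subset_union_right
      · exact Finset.mem_union_right _ (Finset.mem_insert_self _ _))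
  refine ⟨insert q₀ T, c', X₁, fun v hv => ?_, hc', h⟩
  have hv' : v ∈ Z' := by
    rw [Finset.mem_insert] at hv
    rcases hv with h | h
    · rw [h]
      exact hq₀
    · exact (hT v h).1
  exact ⟨hZ'Z hv', hS6 v (hZ'm v hv').2, (hmZ v hv').1⟩

end H30CY
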