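import Pool.Agent.H30.CY.Fin

/-!
Let `F / K` be a finite or infinite Galois extension of a number field `K` with finite layers of
two-power degree, ramified at finitely many primes, with cyclic decomposition groups above two, such
that `F / K` is finite or infinitely many primes split completely.  Then for a positive proportion of
the elliptic curves over `K` the group of points over `F` is finite and the two-primary part of the
Tate-Shafarevich group is trivial over all the number fields between `K` and `F`.
-/

set_option autoImplicit false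
open scoped Classical

namespace Pool.Agent.Results.MP_78d38b_nt.CyclicTwoExtensions

open NumberField WeierstrassCurve IsDedekindDomain Pool.Agent.H10

/-- The pairs `(A, B)` of algebraic integers of `K` of height at most `X`: the absolute values of all
complex conjugates of `A` are at most `X²` and those of `B` are at most `X³`. -/
def Box (K : Type) [Field K] [NumberField K] (X : ℝ) : Set (𝓞 K × 𝓞 K) :=
  {p | ∀ s : K →+* ℂ, ‖s (p.1 : K)‖ ≤ X ^ 2 ∧ ‖s (p.2 : K)‖ ≤ X ^ 3}

variable {K : Type} [Field K] [NumberField K]

/-- The curve `E : y² = x³ + A x + B` over the extension `M` of `K`, where `p = (A, B)`. -/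
def curve (p : 𝓞 K × 𝓞 K) (M : Type) [Field M] [Algebra K M] : WeierstrassCurve M :=
  ⟨0, 0, 0, algebraMap K M p.1, algebraMap K M p.2⟩

/-- The curve has finitely many points over `M` and its Tate-Shafarevich group over `M` has no
nontrivial element of two-power order. -/
def Triv (p : 𝓞 K × 𝓞 K) (M : Type) [Field M] [NumberField M] [Algebra K M] : Prop :=
  Finite (curve p M).toAffine.Point ∧ Sha2Trivial M (curve p M)

/-- The automorphism `g` of `N / K` lies in the decomposition group of the prime `W` of `N`: it
preserves the valuation at `W`. -/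
def InDec {N : Type} [Field N] [NumberField N] [Algebra K N] (W : HeightOneSpectrum (𝓞 N))
    (g : N ≃ₐ[K] N) : Prop :=
  ∀ x : N, W.valuation N (g x) = W.valuation N x

variable (K) in
/-- The primes of `K` which are ramified in some number field between `K` and `F`. -/
def Ramified (F : Type) [Field F] [Algebra K F] : Set (HeightOneSpectrum (𝓞 K)) :=
  {v | ∃ (N : IntermediateField K F) (_ : NumberField N) (V : HeightOneSpectrum (𝓞 N)),
    V.asIdeal.under (𝓞 K) = v.asIdeal ∧ v.asIdeal.map (algebraMap (𝓞 K) (𝓞 N)) ≤ V.asIdeal ^ 2}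

variable (K) in
/-- The primes of `K` which split completely in `F`. -/
def Split (F : Type) [Field F] [Algebra K F] : Set (HeightOneSpectrum (𝓞 K)) :=
  {v | ∃ i : F →+* v.adicCompletion K, ∀ x : K,
    i (algebraMap K F x) = algebraMap K (v.adicCompletion K) x}

/-- `F / K` is a Galois extension, finite or infinite, the finite Galois extensions `N / K` inside `F`
have two-power degree, only finitely many primes of `K` are ramified in `F`, the decomposition groups
of the primes above two in the extensions `N / K` are cyclic, and `F / K` is finite or infinitely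
many primes of `K` split completely in `F`. -/
structure Adm (K F : Type) [Field K] [NumberField K] [Field F] [Algebra K F] : Prop where
  gal : IsGalois K F
  deg : ∀ (N : IntermediateField K F) [NumberField N], IsGalois K N →
    ∃ r : ℕ, Module.finrank K N = 2 ^ r
  ram : (Ramified K F).Finite
  dec : ∀ (N : IntermediateField K F) [NumberField N], IsGalois K N →
    ∀ W : HeightOneSpectrum (𝓞 N), (2 : 𝓞 N) ∈ W.asIdeal →
      ∃ t : N ≃ₐ[K] N, ∀ g : N ≃ₐ[K] N, InDec W g ↔ g ∈ Subgroup.zpowers t
  spl : FiniteDimensional K F ∨ (Split K F).Infinite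

/-- Let `F / K` be an admissible extension, for instance any cyclic extension whose degree is a power of
two.  There are `c > 0` and `X₀` such that for all `X ≥ X₀` at least `c * #(Box K X)` pairs `(A, B)` of
the finite set `Box K X`, with pairwise different `j`-invariants, satisfy: `E : y² = x³ + A x + B` is an
elliptic curve, `E(F)` is finite, and for all number fields `M` between `K` and `F` the group `E(M)` is
finite and the two-primary part of the Tate-Shafarevich group of `E` over `M` is trivial. -/
theorem result (K F : Type) [Field K] [NumberField K] [Field F] [Algebra K F] (h : Adm K F) :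
    ∃ c X₀ : ℝ, 0 < c ∧ ∀ X : ℝ, X₀ ≤ X → (Box K X).Finite ∧
      ∃ G : Finset (𝓞 K × 𝓞 K), c * ((Box K X).ncard : ℝ) ≤ (G.card : ℝ) ∧
        (∀ p ∈ G, p ∈ Box K X ∧ 4 * p.1 ^ 3 + 27 * p.2 ^ 2 ≠ 0 ∧
          Finite (curve p F).toAffine.Point ∧
          ∀ (M : IntermediateField K F) [NumberField M], Triv p M) ∧
        ∀ p ∈ G, ∀ q ∈ G, p ≠ q → p.1 ^ 3 * q.2 ^ 2 ≠ q.1 ^ 3 * p.2 ^ 2 := by
  have hbox : ∀ X : ℝ, Box K X = H76PP.Bx K X := by
    intro X
    ext p
    exact ⟨fun h => ⟨fun s => (h s).1, fun s => (h s).2⟩, fun h s => ⟨h.1 s, h.2 s⟩⟩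
  have hram : {v : HeightOneSpectrum (𝓞 K) | ∃ (N : IntermediateField K F) (_ : NumberField N)
      (V : HeightOneSpectrum (𝓞 N)), H76PP.dn K V = v ∧ H73P2.Ram K V}.Finite := by
    refine h.ram.subset ?_
    rintro v ⟨N, hN, V, rfl, hV⟩
    exact ⟨N, hN, V, rfl, hV⟩
  obtain ⟨c, X₀, hc, h1⟩ := H30CY.main_two K F h.gal h.deg hram h.spl h.dec
  refine ⟨c, X₀, hc, fun X hX => ?_⟩
  rw [hbox X]
  refine ⟨H76PP.Bx_fin K X, ?_⟩
  obtain ⟨G, h2, h3, h4⟩ := h1 X hX
  exact ⟨G, h4, fun p hp => ⟨(h2 p hp).1, (h2 p hp).2.1, (h2 p hp).2.2.1,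
    fun M _ => (h2 p hp).2.2.2 M⟩, fun p hp q hq hne h5 => hne (h3 p hp q hq h5)⟩

end Pool.Agent.Results.MP_78d38b_nt.CyclicTwoExtensions
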