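import Pool.Agent.H30.CY.Mn
import Pool.Agent.H30.PN.Rm
import Pool.Agent.H30.PN.Nc
import Pool.Agent.H73.CY.Rc

/-!
Assembly for the project MP_78d38b_CY: the residue classes at the primes above two are given in advance,
and the fields `N` satisfy the descent property `DescAt` at the primes above two (no row, proved).
-/

set_option autoImplicit false
set_option linter.unusedSectionVars false
open scoped Classical

open WithZero NumberField IsDedekindDomain H38RT H76PP H36MT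
open H38T1 (SC sc scu rep eo la si Pri OddP tp unif)

namespace H30CY

/-- `N / K` is a Galois extension whose degree is a power of two, every ramified prime lies above `R` or
above two, the primes of `T` split completely, and the local conditions above two descend in the
quadratic extensions between `K` and `N`. -/
structure AdmG (K : Type) (N : Type) [Field K] [NumberField K] [Field N] [NumberField N]
    [Algebra K N] (R T : Finset (HeightOneSpectrum (𝓞 K))) (a b : K) : Prop where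
  gal : IsGalois K N
  two : ∃ r : ℕ, Module.finrank K N = 2 ^ r
  ram : ∀ V : HeightOneSpectrum (𝓞 N), (2 : 𝓞 K) ∉ (dn K V).asIdeal → H73P2.Ram K V → dn K V ∈ R
  spl : ∀ v ∈ T, ∃ ι : N →+* v.adicCompletion K, ∀ x : K,
      ι (algebraMap K N x) = algebraMap K (v.adicCompletion K) x
  desc : ∀ v : HeightOneSpectrum (𝓞 K), (2 : 𝓞 K) ∈ v.asIdeal → H36CY.DescAt K N v a b

theorem two_mem_iff {K : Type} [Field K] [NumberField K] {v : HeightOneSpectrum (𝓞 K)} :
    v.valuation K 2 < 1 ↔ (2 : 𝓞 K) ∈ v.asIdeal := by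
  have h := v.valuation_lt_one_iff_mem (K := K) (2 : 𝓞 K)
  have e : algebraMap (𝓞 K) K 2 = 2 := map_ofNat (algebraMap (𝓞 K) K) 2
  constructor
  · intro h1
    refine h.1 ?_
    change v.valuation K (algebraMap (𝓞 K) K 2) < 1
    rw [e]
    exact h1
  · intro h1
    rw [← e]
    exact h.2 h1

theorem two_fin (K : Type) [Field K] [NumberField K] :
    ∃ P : Finset (HeightOneSpectrum (𝓞 K)), ∀ v, v ∈ P ↔ (2 : 𝓞 K) ∈ v.asIdeal := by
  have h : {v : HeightOneSpectrum (𝓞 K) | (2 : 𝓞 K) ∈ v.asIdeal}.Finite := by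
    refine (H36PP.six_fin K).subset fun v hv => ?_
    have h6 : (6 : 𝓞 K) = 3 * 2 := by norm_num
    change (6 : 𝓞 K) ∈ v.asIdeal
    rw [h6]
    exact v.asIdeal.mul_mem_left _ hv
  exact ⟨h.toFinset, fun v => h.mem_toFinset⟩

/-- The residue class. -/
theorem exists_cls {K : Type} [Field K] [NumberField K] {S R : Finset (HeightOneSpectrum (𝓞 K))}
    (hSv : ∀ v : HeightOneSpectrum (𝓞 K), v ∈ S ↔ (2 : 𝓞 K) ∈ v.asIdeal)
    (hR : ∀ v ∈ R, (2 : 𝓞 K) ∉ v.asIdeal) (e : HeightOneSpectrum (𝓞 K) → ℕ)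
    (Av Bv : HeightOneSpectrum (𝓞 K) → 𝓞 K)
    (hcl : ∀ v ∈ S, dsc (Av v) (Bv v) ∉ v.asIdeal ^ e v) :
    ∃ (m : Ideal (𝓞 K)) (E : ℕ) (A₀ B₀ : 𝓞 K), m ≠ ⊥ ∧ 1 ≤ E ∧
      (∀ v ∈ S, m ≤ v.asIdeal ^ E ∧ dsc A₀ B₀ ∉ v.asIdeal ^ E) ∧
      (∀ v : HeightOneSpectrum (𝓞 K), v ∉ S → m ≤ v.asIdeal → dsc A₀ B₀ ∉ v.asIdeal) ∧
      (∀ A B : 𝓞 K, A - A₀ ∈ m → B - B₀ ∈ m →
        (∀ v ∈ S, A - Av v ∈ v.asIdeal ^ e v ∧ B - Bv v ∈ v.asIdeal ^ e v) ∧
        ∀ v ∈ R, H30PN.NoRt K v A B) := by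
  choose b hb using fun v : HeightOneSpectrum (𝓞 K) => H30PN.Rm_noroot v
  obtain ⟨E, hE⟩ : ∃ E : ℕ, E = 1 + ∑ v ∈ S, e v := ⟨_, rfl⟩
  have hEe : ∀ v ∈ S, e v ≤ E := by
    intro v hv
    have h1 : e v ≤ ∑ v ∈ S, e v := Finset.single_le_sum (fun _ _ => Nat.zero_le _) hv
    omega
  obtain ⟨ex, hex⟩ : ∃ ex : HeightOneSpectrum (𝓞 K) → ℕ, ex = fun v => if v ∈ S then E else 1 :=
    ⟨_, rfl⟩
  have hexS : ∀ v ∈ S, ex v = E := by
    intro v hv
    rw [hex]
    exact if_pos hv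
  have hexR : ∀ v ∉ S, ex v = 1 := by
    intro v hv
    rw [hex]
    exact if_neg hv
  have hRS : ∀ v ∈ R, v ∉ S := fun v hv h => hR v hv ((hSv v).1 h)
  obtain ⟨A₀, hA₀⟩ := IsDedekindDomain.exists_forall_sub_mem_ideal (s := S ∪ R)
    (fun v : HeightOneSpectrum (𝓞 K) => v.asIdeal) ex (fun v _ => v.prime)
    (fun v _ w _ hne h => hne (HeightOneSpectrum.ext h)) (fun v => if v.1 ∈ S then Av v else -1)
  obtain ⟨B₀, hB₀⟩ := IsDedekindDomain.exists_forall_sub_mem_ideal (s := S ∪ R)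
    (fun v : HeightOneSpectrum (𝓞 K) => v.asIdeal) ex (fun v _ => v.prime)
    (fun v _ w _ hne h => hne (HeightOneSpectrum.ext h)) (fun v => if v.1 ∈ S then Bv v else b v)
  have hAS : ∀ v ∈ S, A₀ - Av v ∈ v.asIdeal ^ E := by
    intro v hv
    have h := hA₀ v (Finset.mem_union_left _ hv)
    rw [hexS v hv, if_pos hv] at h
    exact h
  have hBS : ∀ v ∈ S, B₀ - Bv v ∈ v.asIdeal ^ E := by
    intro v hv
    have h := hB₀ v (Finset.mem_union_left _ hv)
    rw [hexS v hv, if_pos hv] at h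
    exact h
  have hAR : ∀ v ∈ R, A₀ - (-1) ∈ v.asIdeal := by
    intro v hv
    have h := hA₀ v (Finset.mem_union_right _ hv)
    rw [hexR v (hRS v hv), if_neg (hRS v hv), pow_one] at h
    exact h
  have hBR : ∀ v ∈ R, B₀ - b v ∈ v.asIdeal := by
    intro v hv
    have h := hB₀ v (Finset.mem_union_right _ hv)
    rw [hexR v (hRS v hv), if_neg (hRS v hv), pow_one] at h
    exact h
  obtain ⟨m, hm⟩ : ∃ m : Ideal (𝓞 K), m = ∏ v ∈ S ∪ R, v.asIdeal ^ ex v := ⟨_, rfl⟩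
  have hle : ∀ v ∈ S ∪ R, m ≤ v.asIdeal ^ ex v := fun v hv => by
    rw [hm]
    exact Ideal.le_of_dvd (Finset.dvd_prod_of_mem
      (fun w : HeightOneSpectrum (𝓞 K) => w.asIdeal ^ ex w) hv)
  have hleS : ∀ v ∈ S, m ≤ v.asIdeal ^ E := fun v hv => by
    rw [← hexS v hv]
    exact hle v (Finset.mem_union_left _ hv)
  have hleR : ∀ v ∈ R, m ≤ v.asIdeal := fun v hv => by
    have h := hle v (Finset.mem_union_right _ hv)
    rwa [hexR v (hRS v hv), pow_one] at h
  have hmem : ∀ v : HeightOneSpectrum (𝓞 K), m ≤ v.asIdeal → v ∈ S ∪ R := by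
    intro v hv
    rw [hm] at hv
    obtain ⟨w, hw, hwv⟩ := (Ideal.IsPrime.prod_le v.isPrime).1 hv
    have h1 : w.asIdeal = v.asIdeal :=
      w.isMaximal.eq_of_le v.isPrime.ne_top (Ideal.IsPrime.le_of_pow_le hwv)
    have h2 : w = v := HeightOneSpectrum.ext h1
    rwa [← h2]
  have hno : ∀ A B : 𝓞 K, A - A₀ ∈ m → B - B₀ ∈ m → ∀ v ∈ R, H30PN.NoRt K v A B := by
    intro A B hA hBm v hv t ht
    apply hb v t
    have e : t ^ 3 - t + b v = (t ^ 3 + A * t + B) - t * ((A - A₀) + (A₀ - (-1))) -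
        (B - B₀) - (B₀ - b v) := by ring
    rw [e]
    exact Ideal.sub_mem _ (Ideal.sub_mem _ (Ideal.sub_mem _ ht
      (Ideal.mul_mem_left _ _ (Ideal.add_mem _ (hleR v hv hA) (hAR v hv)))) (hleR v hv hBm))
      (hBR v hv)
  refine ⟨m, E, A₀, B₀, ?_, by omega, ?_, ?_, ?_⟩
  · rw [hm, ← Ideal.zero_eq_bot, Finset.prod_ne_zero_iff]
    intro w _
    exact pow_ne_zero _ (by rw [Ideal.zero_eq_bot]; exact w.ne_bot)
  · intro v hv
    refine ⟨hleS v hv, fun h => hcl v hv ?_⟩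
    have h1 : dsc (Av v) (Bv v) = dsc A₀ B₀ - ((A₀ - Av v) *
        (4 * (A₀ ^ 2 + A₀ * Av v + Av v ^ 2)) + (B₀ - Bv v) * (27 * (B₀ + Bv v))) := by
      unfold dsc
      ring
    have h2 : dsc (Av v) (Bv v) ∈ v.asIdeal ^ E := by
      rw [h1]
      exact sub_mem h (add_mem (Ideal.mul_mem_right _ _ (hAS v hv))
        (Ideal.mul_mem_right _ _ (hBS v hv)))
    exact Ideal.pow_le_pow_right (hEe v hv) h2
  · intro v hvS hmv
    have hvR : v ∈ R := by
      rcases Finset.mem_union.1 (hmem v hmv) with h | h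
      · exact absurd h hvS
      · exact h
    have h2v := hR v hvR
    by_cases h6 : (6 : 𝓞 K) ∈ v.asIdeal
    · have h3 : (3 : 𝓞 K) ∈ v.asIdeal := by
        have h7 : (2 : 𝓞 K) * 3 ∈ v.asIdeal := by
          rw [show (2 : 𝓞 K) * 3 = 6 by norm_num]
          exact h6
        exact (v.isPrime.mem_or_mem h7).resolve_left h2v
      intro h
      have h8 : (2 : 𝓞 K) ^ 2 ∈ v.asIdeal := by
        have e : (2 : 𝓞 K) ^ 2 = 3 * (9 * B₀ ^ 2) + (A₀ - (-1)) * (4 * (A₀ ^ 2 - A₀ + 1)) -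
            dsc A₀ B₀ := by
          unfold dsc
          ring
        rw [e]
        exact sub_mem (add_mem (v.asIdeal.mul_mem_right _ h3)
          (v.asIdeal.mul_mem_right _ (hAR v hvR))) h
      exact h2v (v.isPrime.mem_of_pow_mem 2 h8)
    · refine H30PN.nort_dsc' h6 (hno A₀ B₀ ?_ ?_ v hvR)
      · rw [sub_self]
        exact Ideal.zero_mem _
      · rw [sub_self]
        exact Ideal.zero_mem _
  · intro A B hA hB
    refine ⟨fun v hv => ?_, hno A B hA hB⟩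
    have h1 : v.asIdeal ^ E ≤ v.asIdeal ^ e v := Ideal.pow_le_pow_right (hEe v hv)
    constructor
    · have h2 := h1 (add_mem (hleS v hv hA) (hAS v hv))
      rwa [sub_add_sub_cancel] at h2
    · have h2 := h1 (add_mem (hleS v hv hB) (hBS v hv))
      rwa [sub_add_sub_cancel] at h2

/-- Over `K` itself the two forms of the relaxed Selmer condition agree. -/
theorem relCT_of {K : Type} [Field K] [NumberField K] {S T : Finset (HeightOneSpectrum (𝓞 K))}
    (hSv : ∀ v : HeightOneSpectrum (𝓞 K), v ∈ S ↔ (2 : 𝓞 K) ∈ v.asIdeal) {a b : K}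
    {L : Type} [Field L] [NumberField L] [Algebra K L] {θ : L}
    (h : H73P2.RelT K K L (S ∪ T) a b θ) : H36CY.RelCT K K L T a b θ := by
  intro d hd
  refine h d ⟨hd.ne, hd.sq, ?_, ?_, hd.real⟩
  · intro w hw
    rw [Finset.mem_union, not_or] at hw
    refine hd.even w hw.2 ?_
    have h1 : OddP (dn K w) := by
      have h2 : (2 : 𝓞 K) ∉ (dn K w).asIdeal := by
        intro h3
        apply hw.1
        rw [hSv, H73P2.dn_dn]
        exact h3
      have h3 := ((dn K w).valuation_eq_one_iff_notMem (K := K) (r := (2 : 𝓞 K))).2 h2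
      unfold H38T1.OddP
      rw [← h3]
      congr 1
    rwa [← oddP_dn (K := K)] at h1
  · intro v hv
    rcases Finset.mem_union.1 hv with hv | hv
    · intro j hj
      have h1 : j = algebraMap K (v.adicCompletion K) := RingHom.ext fun x => hj x
      rw [h1]
      exact hd.two v (two_mem_iff.2 ((hSv v).1 hv))
    · exact hd.loc v hv

/-- The general theorem. -/
theorem main_gen (K : Type) [Field K] [NumberField K] (R : Finset (HeightOneSpectrum (𝓞 K)))
    (hR : ∀ v ∈ R, (2 : 𝓞 K) ∉ v.asIdeal) {Z : Set (HeightOneSpectrum (𝓞 K))}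
    (hZ : Z.Infinite) (e : HeightOneSpectrum (𝓞 K) → ℕ) (Av Bv : HeightOneSpectrum (𝓞 K) → 𝓞 K)
    (hcl : ∀ v : HeightOneSpectrum (𝓞 K), (2 : 𝓞 K) ∈ v.asIdeal →
      dsc (Av v) (Bv v) ∉ v.asIdeal ^ e v) :
    ∃ (T : Finset (HeightOneSpectrum (𝓞 K))) (c X₀ : ℝ),
      (∀ v ∈ T, v ∈ Z) ∧ 0 < c ∧ ∀ X : ℝ, X₀ ≤ X → ∃ G : Finset (𝓞 K × 𝓞 K),
        (∀ p ∈ G, p ∈ Bx K X ∧ 4 * p.1 ^ 3 + 27 * p.2 ^ 2 ≠ 0 ∧
          (∀ v : HeightOneSpectrum (𝓞 K), (2 : 𝓞 K) ∈ v.asIdeal →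
            p.1 - Av v ∈ v.asIdeal ^ e v ∧ p.2 - Bv v ∈ v.asIdeal ^ e v) ∧
          ∀ (N : Type) [Field N] [NumberField N] [Algebra K N],
            AdmG K N R T (p.1 : K) (p.2 : K) → ∀ (M : Type) [Field M] [NumberField M]
            [Algebra K M] [Algebra M N] [IsScalarTower K M N],
            Finite (⟨0, 0, 0, algebraMap K M p.1, algebraMap K M p.2⟩ :
              WeierstrassCurve M).toAffine.Point ∧
            Pool.Agent.H10.Sha2Trivial M
              (⟨0, 0, 0, algebraMap K M p.1, algebraMap K M p.2⟩ : WeierstrassCurve M)) ∧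
        (∀ p ∈ G, ∀ q ∈ G, p.1 ^ 3 * q.2 ^ 2 = q.1 ^ 3 * p.2 ^ 2 → p = q) ∧
        c * ((Bx K X).ncard : ℝ) ≤ (G.card : ℝ) := by
  obtain ⟨S, hSv⟩ := two_fin K
  obtain ⟨m, E, A₀, B₀, hm0, hE, hmS, hm, hclass⟩ :=
    exists_cls hSv hR e Av Bv fun v hv => hcl v ((hSv v).1 hv)
  obtain ⟨T, c, X₀, hT, hc, h⟩ := main_B2 K hSv hE hZ hm0 hmS hm
  refine ⟨T, c, X₀, fun v hv => (hT v hv).1, hc, fun X hX => ?_⟩
  obtain ⟨G, hG, hj, hcard⟩ := h X hX
  refine ⟨G, fun p hp => ?_, hj, hcard⟩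
  obtain ⟨hB, h1, h2, hpos, hrel⟩ := hG p hp
  obtain ⟨hc1, hc2⟩ := hclass p.1 p.2 h1 h2
  refine ⟨hB, hrel.ne, fun v hv => hc1 v ((hSv v).2 hv), ?_⟩
  intro N _ _ _ hN M _ _ _ _ _
  have _ := hN.gal
  obtain ⟨r, hr⟩ := hN.two
  have hd : 4 * (p.1 : K) ^ 3 + 27 * (p.2 : K) ^ 2 ≠ 0 := by
    rw [← dsc_coe]
    intro h0
    apply hrel.ne
    apply RingOfIntegers.coe_injective
    rw [map_zero]
    exact h0
  have hodd : ∀ v : HeightOneSpectrum (𝓞 K), v.valuation K 2 = 1 → v ∉ S := by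
    intro v hv hvS
    have h3 := two_mem_iff.2 ((hSv v).1 hvS)
    rw [hv] at h3
    exact lt_irrefl _ h3
  have _ : FiniteDimensional K N := Module.Finite.of_restrictScalars_finite ℚ K N
  obtain ⟨L, _, _, _, θ, hL⟩ := H24PD.exists_cub (K := M)
    (H73P2.noroot (K := K) (N := N) (k := M) hr hrel.irr)
  refine H24PD.descent hL (H73CY.selC_mid (K := K) (N := N) ordSub hr (S := T) hd ?_ hN.spl ?_ ?_
    ?_ ?_ M L θ hL)
  · intro v hv hv2
    exact hrel.nice v fun h => (Finset.mem_union.1 h).elim (hodd v hv2) hv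
  · intro s
    left
    rw [map_add, map_mul, map_mul, map_pow, map_pow, map_ofNat, map_ofNat]
    have h1 := hpos s
    positivity
  · intro V hVT hV2 hV
    have h2V : (2 : 𝓞 K) ∉ (dn K V).asIdeal := by
      intro h3
      have h4 := two_mem_iff.2 h3
      have h5 : OddP (dn K V) := by
        rw [← oddP_dn (K := K)]
        exact hV2
      have h6 : (dn K V).valuation K 2 = 1 := h5
      rw [h6] at h4
      exact lt_irrefl _ h4
    have h1 := H30PN.noroot_of (D := (1 : K)) one_ne_zero (hc2 _ (hN.ram V h2V hV)) (by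
      have : ord ((dn K V).valuation K) (1 : K) = 0 := by
        unfold ord
        rw [map_one]
        simp
      rw [this]
      exact Even.zero)
    rw [one_pow, one_pow, one_mul, one_mul] at h1
    exact h1
  · intro k k' _ _ _ _ _ _ _ _ _ _ _ _ _ h2 d hd0 hsq hloc u hu
    have hu' : (2 : 𝓞 K) ∈ (dn K u).asIdeal := by
      have h3 : (2 : 𝓞 k) ∈ u.asIdeal := two_mem_iff.1 hu
      change algebraMap (𝓞 K) (𝓞 k) 2 ∈ u.asIdeal
      rw [map_ofNat]
      exact h3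
    refine hN.desc (dn K u) hu' k k' h2 d hd0 hsq (fun u' hu2 => hloc u' ?_) u rfl
    rw [two_mem_iff]
    have h3 : algebraMap (𝓞 K) (𝓞 k') 2 ∈ u'.asIdeal := by
      have h4 : (2 : 𝓞 K) ∈ (dn K u').asIdeal := by
        rw [hu2]
        exact hu'
      exact h4
    rwa [map_ofNat] at h3
  · intro L _ _ _ θ hL
    exact relCT_of hSv (hrel.rel L θ hL)

end H30CY
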